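import Mathlib.CategoryTheory.Category.Init
import Mathlib.Analysis.SpecialFunctions.Complex.Arg
import Mathlib.Analysis.CStarAlgebra.Classes
import Mathlib.Tactic.Algebra.Basic

-- ======== part 0: formerly Pool.Agent.MP_1f2e48_gt.Walk
section MrgPart0

set_option autoImplicit false

namespace Pool.Agent.MP_1f2e48_gt

/-- lazy walk on the naturals -/
def Lip (c : ℕ → ℕ) : Prop := ∀ i, c (i + 1) ≤ c i + 1 ∧ c i ≤ c (i + 1) + 1

theorem Lip.bound {c : ℕ → ℕ} (h : Lip c) (i d : ℕ) :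
    c (i + d) ≤ c i + d ∧ c i ≤ c (i + d) + d := by
  induction d with
  | zero => simp
  | succ d ih =>
    have := h (i + d)
    rw [← add_assoc]
    omega

theorem Lip.bound' {c : ℕ → ℕ} (h : Lip c) {i j : ℕ} (hij : i ≤ j) :
    c j ≤ c i + (j - i) ∧ c i ≤ c j + (j - i) := by
  have := h.bound i (j - i)
  rwa [Nat.add_sub_cancel' hij] at this

theorem Lip.ivt_up {c : ℕ → ℕ} (h : Lip c) {i j y : ℕ} (hij : i ≤ j) (h1 : c i ≤ y)
    (h2 : y ≤ c j) : ∃ t, i ≤ t ∧ t ≤ j ∧ c t = y := by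
  induction j, hij using Nat.le_induction with
  | base => exact ⟨i, le_rfl, le_rfl, by omega⟩
  | succ j hij ih =>
    by_cases hy : y ≤ c j
    · obtain ⟨t, a, b, e⟩ := ih hy
      exact ⟨t, a, by omega, e⟩
    · have := h j
      exact ⟨j + 1, by omega, le_rfl, by omega⟩

theorem Lip.ivt_down {c : ℕ → ℕ} (h : Lip c) {i j y : ℕ} (hij : i ≤ j) (h1 : y ≤ c i)
    (h2 : c j ≤ y) : ∃ t, i ≤ t ∧ t ≤ j ∧ c t = y := by
  induction j, hij using Nat.le_induction with
  | base => exact ⟨i, le_rfl, le_rfl, by omega⟩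
  | succ j hij ih =>
    by_cases hy : c j ≤ y
    · obtain ⟨t, a, b, e⟩ := ih hy
      exact ⟨t, a, by omega, e⟩
    · have := h j
      exact ⟨j + 1, by omega, le_rfl, by omega⟩

/-- crookedness between two times -/
def CrAt (c : ℕ → ℕ) (i j : ℕ) : Prop :=
  ∃ i' j', i ≤ i' ∧ i' ≤ j' ∧ j' ≤ j ∧ c i' ≤ c j + 1 ∧ c j ≤ c i' + 1 ∧
    c j' ≤ c i + 1 ∧ c i ≤ c j' + 1

def Crooked (c : ℕ → ℕ) : Prop := ∀ i j, i ≤ j → CrAt c i j

theorem CrAt.widen {c : ℕ → ℕ} {i j i0 j0 : ℕ} (h : CrAt c i0 j0) (h1 : i ≤ i0) (h2 : j0 ≤ j)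
    (e1 : c i0 = c i) (e2 : c j0 = c j) : CrAt c i j := by
  obtain ⟨a, b, h3, h4, h5, h6⟩ := h
  exact ⟨a, b, by omega, h4, by omega, by omega⟩

/-- a crooked lazy walk from 0 to n, constant after time N -/
def CW (n N : ℕ) (c : ℕ → ℕ) : Prop :=
  c 0 = 0 ∧ (∀ i, N ≤ i → c i = n) ∧ (∀ i, c i ≤ n) ∧ Lip c ∧ Crooked c

theorem cw_step {n N1 N2 : ℕ} {c1 c2 : ℕ → ℕ} (h1 : CW (n + 1) N1 c1) (h2 : CW n N2 c2) :
    ∃ N c, CW (n + 2) N c := by
  obtain ⟨a0, aN, ale, aL, aC⟩ := h1
  obtain ⟨b0, bN, ble, bL, bC⟩ := h2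
  let c : ℕ → ℕ := fun i =>
    if i ≤ N1 then c1 i else if i ≤ N1 + N2 then 1 + c2 (N1 + N2 - i) else 1 + c1 (i - (N1 + N2))
  have p1 : ∀ i, i ≤ N1 → c i = c1 i := fun i hi => by simp [c, hi]
  have p2 : ∀ i, N1 ≤ i → i ≤ N1 + N2 → c i = 1 + c2 (N1 + N2 - i) := by
    intro i hi hi2
    by_cases e : i ≤ N1
    · have : i = N1 := by omega
      subst this
      rw [p1 i le_rfl, aN i le_rfl, Nat.add_sub_cancel_left, bN N2 le_rfl]; omega
    · simp [c, e, hi2]
  have p3 : ∀ i, N1 + N2 ≤ i → c i = 1 + c1 (i - (N1 + N2)) := by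
    intro i hi
    by_cases e : i ≤ N1 + N2
    · have : i = N1 + N2 := by omega
      subst this
      rw [p2 _ (by omega) le_rfl, Nat.sub_self, b0, a0]
    · have e' : ¬ i ≤ N1 := by omega
      simp [c, e, e']
  have cL : Lip c := by
    intro i
    by_cases e : i + 1 ≤ N1
    · rw [p1 _ e, p1 i (by omega)]; exact aL i
    · by_cases e2 : i + 1 ≤ N1 + N2
      · rw [p2 _ (by omega) e2, p2 i (by omega) (by omega)]
        have := bL (N1 + N2 - (i + 1))
        have e3 : N1 + N2 - (i + 1) + 1 = N1 + N2 - i := by omega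
        rw [e3] at this
        omega
      · rw [p3 _ (by omega), p3 i (by omega)]
        have := aL (i - (N1 + N2))
        have e3 : i - (N1 + N2) + 1 = i + 1 - (N1 + N2) := by omega
        rw [e3] at this
        omega
  have q1 : ∀ i j, i ≤ j → j ≤ N1 → CrAt c i j := by
    intro i j hij hj
    obtain ⟨a, b, h3, h4, h5, h6⟩ := aC i j hij
    refine ⟨a, b, h3, h4, h5, ?_⟩
    rw [p1 a (by omega), p1 b (by omega), p1 i (by omega), p1 j hj]
    exact h6
  have q2 : ∀ i j, N1 ≤ i → i ≤ j → j ≤ N1 + N2 → CrAt c i j := by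
    intro i j hi hij hj
    obtain ⟨a, b, h3, h4, h5, h6⟩ := bC (N1 + N2 - j) (N1 + N2 - i) (by omega)
    refine ⟨N1 + N2 - b, N1 + N2 - a, by omega, by omega, by omega, ?_⟩
    rw [p2 (N1 + N2 - b) (by omega) (by omega), p2 (N1 + N2 - a) (by omega) (by omega),
      p2 i hi (by omega), p2 j (by omega) hj]
    have e1 : N1 + N2 - (N1 + N2 - b) = b := by omega
    have e2 : N1 + N2 - (N1 + N2 - a) = a := by omega
    rw [e1, e2]
    omega
  have q3 : ∀ i j, N1 + N2 ≤ i → i ≤ j → CrAt c i j := by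
    intro i j hi hij
    obtain ⟨a, b, h3, h4, h5, h6⟩ := aC (i - (N1 + N2)) (j - (N1 + N2)) (by omega)
    refine ⟨a + (N1 + N2), b + (N1 + N2), by omega, by omega, by omega, ?_⟩
    rw [p3 (a + (N1 + N2)) (by omega), p3 (b + (N1 + N2)) (by omega), p3 i hi, p3 j (by omega),
      Nat.add_sub_cancel, Nat.add_sub_cancel]
    omega
  have v1 : c N1 = n + 1 := by rw [p1 _ le_rfl, aN _ le_rfl]
  have v2 : c (N1 + N2) = 1 := by rw [p3 _ le_rfl, Nat.sub_self, a0]
  refine ⟨N1 + N2 + N1, c, ?_, ?_, ?_, cL, ?_⟩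
  · rw [p1 0 (by omega), a0]
  · intro i hi
    rw [p3 i (by omega), aN _ (by omega)]; omega
  · intro i
    by_cases e : i ≤ N1
    · rw [p1 i e]; have := ale i; omega
    · by_cases e2 : i ≤ N1 + N2
      · rw [p2 i (by omega) e2]; have := ble (N1 + N2 - i); omega
      · rw [p3 i (by omega)]; have := ale (i - (N1 + N2)); omega
  · intro i j hij
    by_cases ej1 : j ≤ N1
    · exact q1 i j hij ej1
    by_cases ei3 : N1 + N2 ≤ i
    · exact q3 i j ei3 hij
    by_cases ei1 : i ≤ N1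
    · have xi : c i ≤ n + 1 := by rw [p1 i ei1]; exact ale i
      by_cases ej2 : j ≤ N1 + N2
      · have yj : c j ≤ n + 1 := by
          rw [p2 j (by omega) ej2]; have := ble (N1 + N2 - j); omega
        by_cases hxy : c i ≤ c j
        · obtain ⟨t, a, b, e⟩ := cL.ivt_up ei1 hxy (by omega)
          exact (q1 i t a b).widen le_rfl (by omega) rfl e
        · obtain ⟨t, a, b, e⟩ := cL.ivt_down (i := N1) (j := j) (y := c i) (by omega) (by omega)
            (by omega)
          exact (q2 t j a b ej2).widen (by omega) le_rfl e rfl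
      · have yj : 1 ≤ c j := by rw [p3 j (by omega)]; omega
        have yj2 : c j ≤ n + 2 := by
          rw [p3 j (by omega)]; have := ale (j - (N1 + N2)); omega
        by_cases hxy : c i ≤ c j
        · by_cases hx : 1 ≤ c i
          · obtain ⟨t, a, b, e⟩ := cL.ivt_up (i := N1 + N2) (j := j) (y := c i) (by omega)
              (by omega) hxy
            exact (q3 t j a b).widen (by omega) le_rfl e rfl
          · by_cases hy : c j ≤ n + 1
            · obtain ⟨t, a, b, e⟩ := cL.ivt_up ei1 hxy (by omega)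
              exact (q1 i t a b).widen le_rfl (by omega) rfl e
            · exact ⟨N1, N1 + N2, ei1, by omega, by omega, by omega, by omega, by omega, by omega⟩
        · obtain ⟨t, a, b, e⟩ := cL.ivt_down (i := N1) (j := N1 + N2) (y := c i) (by omega)
            (by omega) (by omega)
          obtain ⟨s, a', b', e'⟩ := cL.ivt_down (i := t) (j := N1 + N2) (y := c j) b
            (by omega) (by omega)
          exact (q2 t s a a' b').widen (by omega) (by omega) e e'
    · have xi : 1 ≤ c i := by rw [p2 i (by omega) (by omega)]; omega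
      by_cases ej2 : j ≤ N1 + N2
      · exact q2 i j (by omega) hij ej2
      · have yj : 1 ≤ c j := by rw [p3 j (by omega)]; omega
        by_cases hxy : c j ≤ c i
        · obtain ⟨t, a, b, e⟩ := cL.ivt_down (i := i) (j := N1 + N2) (y := c j) (by omega)
            hxy (by omega)
          exact (q2 i t (by omega) a b).widen le_rfl (by omega) rfl e
        · obtain ⟨t, a, b, e⟩ := cL.ivt_up (i := N1 + N2) (j := j) (y := c i) (by omega)
            (by omega) (by omega)
          exact (q3 t j a b).widen (by omega) le_rfl e rfl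

theorem exists_cw (n : ℕ) : ∃ N c, CW n N c := by
  have key : ∀ n, (∃ N c, CW n N c) ∧ (∃ N c, CW (n + 1) N c) := by
    intro n
    induction n with
    | zero =>
      refine ⟨⟨0, fun _ => 0, rfl, fun _ _ => rfl, fun _ => le_rfl, fun _ => by simp,
        fun i j hij => ⟨i, i, le_rfl, le_rfl, hij, by simp⟩⟩,
        ⟨1, fun i => if i = 0 then 0 else 1, by simp, ?_, ?_, ?_, ?_⟩⟩
      · intro i hi
        have : i ≠ 0 := by omega
        simp [this]
      · intro i; dsimp only; split_ifs <;> omega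
      · intro i; dsimp only; split_ifs <;> omega
      · intro i j hij
        refine ⟨i, i, le_rfl, le_rfl, hij, ?_⟩
        dsimp only; split_ifs <;> omega
    | succ n ih =>
      obtain ⟨⟨N2, c2, h2⟩, ⟨N1, c1, h1⟩⟩ := ih
      exact ⟨⟨N1, c1, h1⟩, cw_step h1 h2⟩
  exact (key n).1

noncomputable def cN (n : ℕ) : ℕ := Classical.choose (exists_cw n)
noncomputable def cw (n : ℕ) : ℕ → ℕ := Classical.choose (Classical.choose_spec (exists_cw n))

theorem cw_spec (n : ℕ) : CW n (cN n) (cw n) :=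
  Classical.choose_spec (Classical.choose_spec (exists_cw n))

/-- degree one lazy walk from `[0,N]` onto `[0,n]` -/
def LW (w : ℕ → ℕ) (N n : ℕ) : Prop :=
  w 0 = 0 ∧ w N = n ∧ (∀ i, i ≤ N → w i ≤ n) ∧ Lip w

theorem Lip.comp {w v : ℕ → ℕ} (hw : Lip w) (hv : Lip v) : Lip (fun i => w (v i)) := by
  intro i
  have := hv i
  dsimp only
  rcases le_total (v i) (v (i + 1)) with h | h
  · have := hw.bound' h; omega
  · have := hw.bound' h; omega

theorem LW.comp {w v : ℕ → ℕ} {N1 N2 n : ℕ} (hw : LW w N1 n) (hv : LW v N2 N1) :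
    LW (fun i => w (v i)) N2 n := by
  obtain ⟨a0, aN, ale, aL⟩ := hw
  obtain ⟨b0, bN, ble, bL⟩ := hv
  refine ⟨by simp only [b0, a0], by simp only [bN, aN], fun i hi => ale _ (ble i hi), aL.comp bL⟩

theorem LW.id (n : ℕ) : LW (fun i => i) n n :=
  ⟨rfl, rfl, fun _ h => h, fun i => by simp only; omega⟩

theorem lip_half : Lip (fun i => i / 2) := fun i => by simp only; omega

theorem Crooked.half {c : ℕ → ℕ} (h : Crooked c) : Crooked (fun i => c (i / 2)) := by
  intro i j hij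
  obtain ⟨a, b, h3, h4, h5, h6⟩ := h (i / 2) (j / 2) (by omega)
  refine ⟨max i (2 * a), max i (2 * b), by omega, by omega, by omega, ?_⟩
  have e1 : max i (2 * a) / 2 = a := by omega
  have e2 : max i (2 * b) / 2 = b := by omega
  simp only [e1, e2]
  exact h6

/-- first hitting time -/
noncomputable def hit (c : ℕ → ℕ) (y : ℕ) : ℕ := sInf {h | c h = y}

theorem hit_spec {c : ℕ → ℕ} (hL : Lip c) (h0 : c 0 = 0) {N y : ℕ} (hy : y ≤ c N) :
    c (hit c y) = y ∧ hit c y ≤ N ∧ ∀ i, i ≤ hit c y → c i ≤ y := by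
  obtain ⟨t, -, ht, e⟩ := hL.ivt_up (Nat.zero_le N) (by omega : c 0 ≤ y) hy
  have hne : {h | c h = y}.Nonempty := ⟨t, e⟩
  have hm : c (hit c y) = y := Nat.sInf_mem hne
  have hle : ∀ s, c s = y → hit c y ≤ s := fun s hs => Nat.sInf_le hs
  refine ⟨hm, (hle t e).trans ht, ?_⟩
  intro i hi
  by_contra hc
  obtain ⟨s, -, hs, e2⟩ := hL.ivt_up (Nat.zero_le i) (by omega : c 0 ≤ y) (by omega)
  have := hle s e2
  have : s = i := by omega
  subst this
  omega

theorem subwalk {g : ℕ → ℕ} (hL : Lip g) (h0 : g 0 = 0) {N a n : ℕ} (hb : a + n ≤ g N) :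
    ∃ s m, s + m ≤ N ∧ g s = a ∧ LW (fun i => g (s + i) - a) m n ∧
      ∀ i, i ≤ m → a ≤ g (s + i) := by
  obtain ⟨e1, e2, e3⟩ := hit_spec hL h0 hb
  set e := hit g (a + n)
  obtain ⟨t, -, ht, et⟩ := hL.ivt_up (Nat.zero_le e) (by omega : g 0 ≤ a) (by omega)
  classical
  let s := Nat.findGreatest (fun x => g x = a) e
  have hs1 : g s = a := Nat.findGreatest_spec (P := fun x => g x = a) ht et
  have hs2 : s ≤ e := Nat.findGreatest_le e
  have hs3 : ∀ x, x ≤ e → g x = a → x ≤ s := fun x hx h =>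
    Nat.le_findGreatest (P := fun x => g x = a) hx h
  have key : ∀ i, i ≤ e - s → a ≤ g (s + i) := by
    intro i hi
    by_contra hc
    obtain ⟨u, a1, a2, a3⟩ := hL.ivt_up (i := s + i) (j := e) (y := a) (by omega) (by omega)
      (by omega)
    have := hs3 u a2 a3
    have : i = 0 := by omega
    subst this
    simp at hc
    omega
  refine ⟨s, e - s, by omega, hs1, ⟨by simp [hs1], ?_, ?_, ?_⟩, key⟩
  · have : s + (e - s) = e := by omega
    simp only [this, e1]; omega
  · intro i hi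
    have := e3 (s + i) (by omega)
    simp only; omega
  · intro i
    have := hL (s + i)
    simp only [← add_assoc]
    omega

end Pool.Agent.MP_1f2e48_gt

end MrgPart0

-- ======== part 1: formerly Pool.Agent.MP_1f2e48_gt.Grid
section MrgPart1

set_option autoImplicit false

namespace Pool.Agent.MP_1f2e48_gt

/-- one move in the grid -/
def Step (P Q : ℕ × ℕ) : Prop :=
  (P.2 = Q.2 ∧ P.1 ≤ Q.1 + 1 ∧ Q.1 ≤ P.1 + 1) ∨ (P.1 = Q.1 ∧ P.2 ≤ Q.2 + 1 ∧ Q.2 ≤ P.2 + 1)

theorem Step.symm {P Q : ℕ × ℕ} (h : Step P Q) : Step Q P := by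
  unfold Step at *; omega

theorem Step.swap {P Q : ℕ × ℕ} (h : Step P Q) : Step P.swap Q.swap := by
  unfold Step at *; simp only [Prod.fst_swap, Prod.snd_swap]; omega

/-- a grid path inside `S` with total weight `r` -/
inductive Val (S : ℕ × ℕ → Prop) (ω : ℕ × ℕ → ℕ × ℕ → ℝ) (P : ℕ × ℕ) : ℕ × ℕ → ℝ → Prop
  | refl : S P → Val S ω P P 0
  | tail {Q R : ℕ × ℕ} {r : ℝ} : Val S ω P Q r → Step Q R → S R → Val S ω P R (r + ω Q R)

variable {S S' : ℕ × ℕ → Prop} {ω ω' : ℕ × ℕ → ℕ × ℕ → ℝ}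

theorem Val.right {P Q : ℕ × ℕ} {r : ℝ} (h : Val S ω P Q r) : S Q := by
  cases h with
  | refl h => exact h
  | tail _ _ h => exact h

theorem Val.left {P Q : ℕ × ℕ} {r : ℝ} (h : Val S ω P Q r) : S P := by
  induction h with
  | refl h => exact h
  | tail _ _ _ ih => exact ih

theorem Val.trans {P Q R : ℕ × ℕ} {r s : ℝ} (h : Val S ω P Q r) (h' : Val S ω Q R s) :
    Val S ω P R (r + s) := by
  induction h' with
  | refl _ => simpa using h
  | tail _ h2 h3 ih => rw [← add_assoc]; exact ih.tail h2 h3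

theorem Val.map (φ : ℕ × ℕ → ℕ × ℕ)
    (h1 : ∀ P Q, Step P Q → S P → S Q → Step (φ P) (φ Q))
    (h2 : ∀ P, S P → S' (φ P))
    (h3 : ∀ P Q, Step P Q → S P → S Q → ω' (φ P) (φ Q) = ω P Q)
    {P Q : ℕ × ℕ} {r : ℝ} (h : Val S ω P Q r) : Val S' ω' (φ P) (φ Q) r := by
  induction h with
  | refl h => exact Val.refl (h2 _ h)
  | tail hv hs hS ih =>
    rw [← h3 _ _ hs hv.right hS]
    exact ih.tail (h1 _ _ hs hv.right hS) (h2 _ hS)

theorem Val.change (ω' : ℕ × ℕ → ℕ × ℕ → ℝ) {P Q : ℕ × ℕ} {r : ℝ} (h : Val S ω P Q r) :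
    ∃ s, Val S ω' P Q s := by
  induction h with
  | refl h => exact ⟨0, Val.refl h⟩
  | tail _ hs hS ih => obtain ⟨s, hs'⟩ := ih; exact ⟨_, hs'.tail hs hS⟩

theorem Val.symm0 {P Q : ℕ × ℕ} {r : ℝ} (h : Val S (fun _ _ => 0) P Q r) :
    Val S (fun _ _ => 0) Q P 0 := by
  induction h with
  | refl h => exact Val.refl h
  | tail hv hs hS ih =>
    have := ((Val.refl (ω := fun _ _ => 0) hS).tail hs.symm hv.right).trans ih
    simpa using this

theorem Val.trans0 {P Q R : ℕ × ℕ} (h : Val S (fun _ _ => 0) P Q 0)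
    (h' : Val S (fun _ _ => 0) Q R 0) : Val S (fun _ _ => 0) P R 0 := by
  simpa using h.trans h'

/-- `θ` is a primitive of `ω` on `S` -/
def Prim (S : ℕ × ℕ → Prop) (ω : ℕ × ℕ → ℕ × ℕ → ℝ) (θ : ℕ × ℕ → ℝ) : Prop :=
  ∀ P Q, Step P Q → S P → S Q → θ Q - θ P = ω P Q

theorem Val.prim {θ : ℕ × ℕ → ℝ} (hθ : Prim S ω θ) {P Q : ℕ × ℕ} {r : ℝ} (h : Val S ω P Q r) :
    θ Q - θ P = r := by
  induction h with
  | refl _ => simp
  | tail hv hs hS ih => have := hθ _ _ hs hv.right hS; linarith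

theorem Val.angle {A : ℕ × ℕ → Real.Angle}
    (hA : ∀ P Q, ((ω P Q : ℝ) : Real.Angle) = A Q - A P) {P Q : ℕ × ℕ} {r : ℝ}
    (h : Val S ω P Q r) : (r : Real.Angle) = A Q - A P := by
  induction h with
  | refl _ => simp
  | tail _ _ _ ih => rw [Real.Angle.coe_add, ih, hA]; abel

/-- extension of a degree one walk by one virtual last step -/
def ext1 (w : ℕ → ℕ) (N n : ℕ) (i : ℕ) : ℕ := if i ≤ N then w i else n + 1

/-- signed sum over the crossings of the edge `u, u+1`, evaluated at the lower end -/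
def trf (W : ℕ → ℕ) (N : ℕ) (f : ℕ → ℝ) (u : ℕ) : ℝ :=
  ∑ i ∈ Finset.range (N + 1),
    ((if W i = u ∧ W (i + 1) = u + 1 then f i else 0) -
      (if W i = u + 1 ∧ W (i + 1) = u then f (i + 1) else 0))

theorem trf_congr (W : ℕ → ℕ) (N : ℕ) (f g : ℕ → ℝ) (u : ℕ) (h : ∀ i, W i = u → f i = g i) :
    trf W N f u = trf W N g u := by
  unfold trf
  refine Finset.sum_congr rfl fun i _ => ?_
  congr 1
  · split_ifs with e
    · exact h _ e.1
    · rfl
  · split_ifs with e
    · exact h _ e.2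
    · rfl

theorem trf_add (W : ℕ → ℕ) (N : ℕ) (f g : ℕ → ℝ) (u : ℕ) :
    trf W N (fun i => f i + g i) u = trf W N f u + trf W N g u := by
  unfold trf
  rw [← Finset.sum_add_distrib]
  refine Finset.sum_congr rfl fun i _ => ?_
  split_ifs <;> ring

theorem trf_const {W : ℕ → ℕ} {N n : ℕ} (hL : ∀ i, i ≤ N → W (i + 1) ≤ W i + 1 ∧ W i ≤ W (i + 1) + 1)
    (h0 : W 0 = 0) (hN : W (N + 1) = n + 1) (a : ℝ) {u : ℕ} (hu : u ≤ n) :
    trf W N (fun _ => a) u = a := by
  unfold trf
  have key := Finset.sum_range_sub (fun i => if u < W i then a else 0) (N + 1)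
  have e1 : u < W (N + 1) := by omega
  have e2 : ¬ u < W 0 := by omega
  simp only [e1, e2, if_true, if_false, sub_zero] at key
  refine Eq.trans (Finset.sum_congr rfl fun i hi => ?_) key
  have := hL i (by have := Finset.mem_range.1 hi; omega)
  split_ifs <;> first | omega | simp

theorem trf_succ {W : ℕ → ℕ} {N n : ℕ}
    (hL : ∀ i, i ≤ N → W (i + 1) ≤ W i + 1 ∧ W i ≤ W (i + 1) + 1)
    (h0 : W 0 = 0) (hN : W (N + 1) = n + 1) (f : ℕ → ℝ) {u : ℕ} (hu : u + 1 ≤ n)
    (hf : ∀ i, i ≤ N → (W i = u ∨ W i = u + 1) → (W (i + 1) = u ∨ W (i + 1) = u + 1) →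
      f (i + 1) = f i) :
    trf W N f (u + 1) = trf W N f u := by
  unfold trf
  have key := Finset.sum_range_sub (fun i => if W i = u + 1 then f i else 0) (N + 1)
  have e1 : ¬ W (N + 1) = u + 1 := by omega
  have e2 : ¬ W 0 = u + 1 := by omega
  simp only [e1, e2, if_false, sub_zero] at key
  rw [← sub_eq_zero, ← Finset.sum_sub_distrib, ← neg_eq_zero, ← Finset.sum_neg_distrib]
  refine Eq.trans (Finset.sum_congr rfl fun i hi => ?_) key
  have hi' : i ≤ N := by have := Finset.mem_range.1 hi; omega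
  have h1 := hL i hi'
  have h2 := hf i hi'
  split_ifs <;> first | omega | (rw [h2 (by omega) (by omega)]; ring) | ring

theorem trf_zero {W : ℕ → ℕ} {N n : ℕ}
    (hL : ∀ i, i ≤ N → W (i + 1) ≤ W i + 1 ∧ W i ≤ W (i + 1) + 1)
    (h0 : W 0 = 0) (hN : W (N + 1) = n + 1) (f : ℕ → ℝ)
    (hf : ∀ i, i ≤ N → W i = 0 → W (i + 1) = 0 → f (i + 1) = f i) :
    trf W N f 0 = f 0 := by
  unfold trf
  have key := Finset.sum_range_sub (fun i => if W i = 0 then f i else 0) (N + 1)
  have e1 : ¬ W (N + 1) = 0 := by omega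
  simp only [e1, h0, if_false, if_true, zero_sub] at key
  rw [← neg_inj, ← key, ← Finset.sum_neg_distrib]
  refine Finset.sum_congr rfl fun i hi => ?_
  have hi' : i ≤ N := by have := Finset.mem_range.1 hi; omega
  have h1 := hL i hi'
  have h2 := hf i hi'
  split_ifs <;> first | omega | (rw [h2 (by omega) (by omega)]; ring) | ring

theorem trf_top {W : ℕ → ℕ} {N n : ℕ} (hle : ∀ i, i ≤ N → W i ≤ n) (hW : W N = n)
    (hN : W (N + 1) = n + 1) (f : ℕ → ℝ) : trf W N f n = f N := by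
  unfold trf
  rw [Finset.sum_range_succ, Finset.sum_eq_zero]
  · simp [hW, hN]
  · intro i hi
    have hi' := Finset.mem_range.1 hi
    have h1 := hle i (by omega)
    have h2 := hle (i + 1) (by omega)
    split_ifs <;> first | omega | simp

theorem descent1 {w : ℕ → ℕ} {N n : ℕ} (hw : LW w N n) (hS : ∀ P, S P → P.1 ≤ n)
    (h0 : ∀ P, ω P P = 0) (ha : ∀ P Q, Step P Q → S P → S Q → ω Q P = -ω P Q)
    {θ' : ℕ × ℕ → ℝ}
    (hθ : Prim (fun P => P.1 ≤ N ∧ S (w P.1, P.2)) (fun P Q => ω (w P.1, P.2) (w Q.1, Q.2)) θ') :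
    ∃ θ, Prim S ω θ ∧ (∀ j, S (0, j) → θ (0, j) = θ' (0, j)) ∧
      (∀ j, θ (n, j) = θ' (N, j)) := by
  obtain ⟨w0, wN, wle, wL⟩ := hw
  let W := ext1 w N n
  have W1 : ∀ i, i ≤ N → W i = w i := fun i hi => by simp [W, ext1, hi]
  have W2 : ∀ i, N < i → W i = n + 1 := fun i hi => by
    have : ¬ i ≤ N := by omega
    simp [W, ext1, this]
  have W3 : ∀ i, W i ≤ n → i ≤ N := fun i hi => by
    by_contra hc
    have := W2 i (by omega); omega
  have hL : ∀ i, i ≤ N → W (i + 1) ≤ W i + 1 ∧ W i ≤ W (i + 1) + 1 := by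
    intro i hi
    by_cases e : i = N
    · subst e
      rw [W2 _ (by omega), W1 i le_rfl, wN]; omega
    · rw [W1 _ (by omega), W1 i hi]; exact wL i
  have hW0 : W 0 = 0 := by rw [W1 0 (by omega), w0]
  have hWN : W (N + 1) = n + 1 := W2 _ (by omega)
  have hor : ∀ u j, S (u, j) → S (u + 1, j) →
      trf W N (fun i => θ' (i, j)) (u + 1) - trf W N (fun i => θ' (i, j)) u =
        ω (u, j) (u + 1, j) := by
    intro u j s1 s2
    have hu : u + 1 ≤ n := hS _ s2
    have st : Step (u, j) (u + 1, j) := Or.inl ⟨rfl, by simp only; omega, by simp only; omega⟩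
    let φ : ℕ → ℝ := fun i => θ' (i, j) - (if W i = u + 1 then ω (u, j) (u + 1, j) else 0)
    have e1 : trf W N (fun i => θ' (i, j)) u = trf W N φ u :=
      trf_congr _ _ _ _ _ fun i hi => by simp [φ, hi]
    have e2 : trf W N (fun i => θ' (i, j)) (u + 1) =
        trf W N (fun i => φ i + ω (u, j) (u + 1, j)) (u + 1) :=
      trf_congr _ _ _ _ _ fun i hi => by simp [φ, hi]
    rw [e1, e2, trf_add, trf_const hL hW0 hWN _ hu, trf_succ hL hW0 hWN φ hu]
    · ring
    · intro i hi a b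
      have hi1 : i + 1 ≤ N := W3 _ (by omega)
      have a' := W1 i hi
      have b' := W1 _ hi1
      have sa : S (w i, j) := by
        rcases a with a | a
        · rw [← a', a]; exact s1
        · rw [← a', a]; exact s2
      have sb : S (w (i + 1), j) := by
        rcases b with b | b
        · rw [← b', b]; exact s1
        · rw [← b', b]; exact s2
      have := hθ (i, j) (i + 1, j) (Or.inl ⟨rfl, by simp only; omega, by simp only; omega⟩)
        ⟨hi, sa⟩ ⟨hi1, sb⟩
      simp only at this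
      rw [← a', ← b'] at this
      have anti := ha _ _ st s1 s2
      simp only [φ]
      rcases a with a | a <;> rcases b with b | b <;> rw [a, b] at this ⊢
      · rw [h0] at this; simp; linarith
      · simp; linarith
      · rw [anti] at this; simp; linarith
      · rw [h0] at this; simp; linarith
  refine ⟨fun P => trf W N (fun i => θ' (i, P.2)) P.1, ?_, ?_, ?_⟩
  · rintro ⟨u, j⟩ ⟨u', j'⟩ st s1 s2
    simp only
    rcases st with ⟨e, a, b⟩ | ⟨e, a, b⟩
    · simp only at e a b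
      subst e
      rcases lt_trichotomy u u' with h | h | h
      · have : u' = u + 1 := by omega
        subst this
        exact hor u j s1 s2
      · subst h
        simp [h0]
      · have : u = u' + 1 := by omega
        subst this
        have st : Step (u', j) (u' + 1, j) :=
          Or.inl ⟨rfl, by simp only; omega, by simp only; omega⟩
        rw [ha _ _ st s2 s1, ← hor u' j s2 s1]; ring
    · simp only at e a b
      subst e
      have hu : u ≤ n := hS _ s1
      have e2 : trf W N (fun i => θ' (i, j')) u =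
          trf W N (fun i => θ' (i, j) + ω (u, j) (u, j')) u := by
        refine trf_congr _ _ _ _ _ fun i hi => ?_
        have hi1 : i ≤ N := W3 _ (by omega)
        have a' := W1 i hi1
        have := hθ (i, j) (i, j') (Or.inr ⟨rfl, a, b⟩) ⟨hi1, by simp only; rw [← a', hi]; exact s1⟩
          ⟨hi1, by simp only; rw [← a', hi]; exact s2⟩
        simp only at this
        rw [← a', hi] at this
        linarith
      rw [e2, trf_add, trf_const hL hW0 hWN _ hu]; ring
  · intro j s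
    refine trf_zero hL hW0 hWN _ fun i hi a b => ?_
    have hi1 : i + 1 ≤ N := W3 _ (by omega)
    have a' := W1 i hi
    have b' := W1 _ hi1
    have := hθ (i, j) (i + 1, j) (Or.inl ⟨rfl, by simp only; omega, by simp only; omega⟩)
      ⟨hi, by simp only; rw [← a', a]; exact s⟩ ⟨hi1, by simp only; rw [← b', b]; exact s⟩
    simp only at this
    rw [← a', ← b', a, b, h0] at this
    linarith
  · intro j
    exact trf_top (fun i hi => by rw [W1 i hi]; exact wle i hi) (by rw [W1 N le_rfl, wN]) hWN _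

theorem descent2 {w : ℕ → ℕ} {N n : ℕ} (hw : LW w N n) (hS : ∀ P, S P → P.2 ≤ n)
    (h0 : ∀ P, ω P P = 0) (ha : ∀ P Q, Step P Q → S P → S Q → ω Q P = -ω P Q)
    {θ' : ℕ × ℕ → ℝ}
    (hθ : Prim (fun P => P.2 ≤ N ∧ S (P.1, w P.2)) (fun P Q => ω (P.1, w P.2) (Q.1, w Q.2)) θ') :
    ∃ θ, Prim S ω θ := by
  obtain ⟨θ, h1, -⟩ := descent1 (S := fun P => S P.swap) (ω := fun P Q => ω P.swap Q.swap)
    (θ' := fun P => θ' P.swap) hw (fun P h => hS _ h) (fun P => h0 _)
    (fun P Q st a b => ha _ _ st.swap a b) (fun P Q st a b => hθ _ _ st.swap a b)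
  exact ⟨fun P => θ P.swap, fun P Q st a b => h1 P.swap Q.swap st.swap a b⟩

/-- corner of an interval -/
def cr (b : Bool) (n : ℕ) : ℕ := if b then n else 0

theorem transfer1 {w : ℕ → ℕ} {N n : ℕ} (hw : LW w N n) (hS : ∀ P, S P → P.1 ≤ n)
    {b b' : Bool} {j j' : ℕ} (h : Val S (fun _ _ => 0) (cr b n, j) (cr b' n, j') 0) :
    Val (fun P => P.1 ≤ N ∧ S (w P.1, P.2)) (fun _ _ => 0) (cr b N, j) (cr b' N, j') 0 := by
  classical
  let S1 : ℕ × ℕ → Prop := fun P => P.1 ≤ N ∧ S (w P.1, P.2)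
  let θ' : ℕ × ℕ → ℝ := fun Q => if Val S1 (fun _ _ => 0) (cr b N, j) Q 0 then 1 else 0
  have hθ : Prim S1 (fun _ _ => 0) θ' := by
    intro P Q st s1 s2
    have : Val S1 (fun _ _ => 0) (cr b N, j) Q 0 ↔ Val S1 (fun _ _ => 0) (cr b N, j) P 0 :=
      ⟨fun h => by simpa using h.tail st.symm s1, fun h => by simpa using h.tail st s2⟩
    simp [θ', this]
  obtain ⟨θ, h1, h2, h3⟩ := descent1 (S := S) (ω := fun _ _ => 0) hw hS (fun _ => rfl)
    (fun _ _ _ _ _ => by simp) hθ
  have cor : ∀ c y, S (cr c n, y) → θ (cr c n, y) = θ' (cr c N, y) := by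
    intro c y s
    cases c
    · exact h2 y s
    · exact h3 y
  have cS : S1 (cr b N, j) := by
    have := h.left
    cases b
    · exact ⟨Nat.zero_le _, by simp only [cr, Bool.false_eq_true, if_false, hw.1] at this ⊢; exact this⟩
    · exact ⟨le_rfl, by simp only [cr, if_true, hw.2.1] at this ⊢; exact this⟩
  have e := h.prim h1
  rw [cor _ _ h.left, cor _ _ h.right] at e
  have e1 : θ' (cr b N, j) = 1 := by simp [θ', Val.refl cS]
  by_contra hc
  have e2 : θ' (cr b' N, j') = 0 := by simp only [θ']; rw [if_neg hc]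
  rw [e1, e2] at e
  norm_num at e

theorem transfer2 {w v : ℕ → ℕ} {N n M m : ℕ} (hw : LW w N n) (hv : LW v M m)
    (hS : ∀ P, S P → P.1 ≤ n ∧ P.2 ≤ m) {b b' c c' : Bool}
    (h : Val S (fun _ _ => 0) (cr b n, cr c m) (cr b' n, cr c' m) 0) :
    Val (fun P => P.1 ≤ N ∧ P.2 ≤ M ∧ S (w P.1, v P.2)) (fun _ _ => 0)
      (cr b N, cr c M) (cr b' N, cr c' M) 0 := by
  have h1 := transfer1 hw (fun P h => (hS P h).1) h
  have h2 := h1.map (S' := fun P => P.2 ≤ N ∧ S (w P.2, P.1)) (ω' := fun _ _ => 0) Prod.swap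
    (fun P Q st _ _ => st.swap) (fun P h => h) (fun _ _ _ _ _ => rfl)
  have h3 := transfer1 (S := fun P => P.2 ≤ N ∧ S (w P.2, P.1)) hv (fun P h => (hS _ h.2).2) h2
  exact h3.map (S' := fun P => P.1 ≤ N ∧ P.2 ≤ M ∧ S (w P.1, v P.2)) (ω' := fun _ _ => 0)
    Prod.swap (fun P Q st _ _ => st.swap) (fun P h => ⟨h.2.1, h.1, h.2.2⟩) (fun _ _ _ _ _ => rfl)

end Pool.Agent.MP_1f2e48_gt

end MrgPart1

-- ======== part 2: formerly Pool.Agent.MP_1f2e48_gt.Lift
section MrgPart2

set_option autoImplicit false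

namespace Pool.Agent.MP_1f2e48_gt

open Real

noncomputable def ang (z : ℂ) : Real.Angle := (Complex.arg z : Real.Angle)

noncomputable def om (z w : ℂ) : ℝ := (ang w - ang z).toReal

theorem om_coe (z w : ℂ) : ((om z w : ℝ) : Real.Angle) = ang w - ang z := by
  simp [om]

theorem om_self (z : ℂ) : om z z = 0 := by simp [om]

theorem om_small {z w : ℂ} (h : ‖w - z‖ < ‖z‖) : |om z w| < π / 2 := by
  have hz : z ≠ 0 := by
    rintro rfl
    simp at h
    exact absurd h (not_lt.2 (norm_nonneg _))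
  have hw : w ≠ 0 := by
    rintro rfl
    simp at h
  have e : ang w - ang z = ((Complex.arg (w / z) : ℝ) : Real.Angle) := by
    rw [Complex.arg_div_coe_angle hw hz]; rfl
  rw [om, e, Complex.arg_coe_angle_toReal_eq_arg, Complex.abs_arg_lt_pi_div_two_iff]
  left
  have h1 : ‖w / z - 1‖ < 1 := by
    have : w / z - 1 = (w - z) / z := by field_simp
    rw [this, norm_div, div_lt_one (norm_pos_iff.2 hz)]
    exact h
  have h2 := Complex.abs_re_le_norm (w / z - 1)
  simp only [Complex.sub_re, Complex.one_re] at h2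
  have := (abs_le.1 h2).1
  linarith

theorem eq_of_angle {a b : ℝ} (h : (a : Real.Angle) = (b : Real.Angle)) (h2 : |a - b| < 2 * π) :
    a = b := by
  obtain ⟨k, hk⟩ := Real.Angle.angle_eq_iff_two_pi_dvd_sub.1 h
  rw [hk, abs_mul, abs_of_pos Real.two_pi_pos] at h2
  have : |(k : ℝ)| < 1 := by
    by_contra hc
    have := mul_le_mul_of_nonneg_left (not_lt.1 hc) Real.two_pi_pos.le
    linarith
  have hk0 : k = 0 := by
    have : |k| < 1 := by exact_mod_cast this
    exact Int.abs_lt_one_iff.1 this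
  rw [hk0] at hk
  simp at hk
  linarith

theorem om_anti {z w : ℂ} (h : ‖w - z‖ < ‖z‖) (h' : ‖z - w‖ < ‖w‖) : om w z = -om z w := by
  apply eq_of_angle
  · rw [Real.Angle.coe_neg, om_coe, om_coe]; abel
  · have a := abs_lt.1 (om_small h)
    have b := abs_lt.1 (om_small h')
    have := Real.pi_pos
    rw [abs_lt]; constructor <;> linarith

theorem ang_neg {z : ℂ} (hz : z ≠ 0) : ang (-z) = ang z + (π : ℝ) :=
  Complex.arg_neg_coe_angle hz

theorem om_neg {z w : ℂ} (hz : z ≠ 0) (hw : w ≠ 0) : om (-z) (-w) = om z w := by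
  unfold om
  rw [ang_neg hz, ang_neg hw]
  congr 1
  abel

noncomputable def rowL (D : ℕ × ℕ → ℂ) : ℕ → ℝ
  | 0 => Complex.arg (D (0, 0))
  | i + 1 => rowL D i + om (D (i, 0)) (D (i + 1, 0))

noncomputable def colL (D : ℕ × ℕ → ℂ) (i : ℕ) : ℕ → ℝ
  | 0 => rowL D i
  | j + 1 => colL D i j + om (D (i, j)) (D (i, j + 1))

theorem rowL_coe (D : ℕ × ℕ → ℂ) (i : ℕ) : ((rowL D i : ℝ) : Real.Angle) = ang (D (i, 0)) := by
  induction i with
  | zero => rfl
  | succ i ih => rw [rowL, Real.Angle.coe_add, ih, om_coe]; abel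

theorem colL_coe (D : ℕ × ℕ → ℂ) (i j : ℕ) :
    ((colL D i j : ℝ) : Real.Angle) = ang (D (i, j)) := by
  induction j with
  | zero => exact rowL_coe D i
  | succ j ih => rw [colL, Real.Angle.coe_add, ih, om_coe]; abel

theorem grid_lift (D : ℕ × ℕ → ℂ) (N M : ℕ)
    (h : ∀ P Q, Step P Q → (P.1 ≤ N ∧ P.2 ≤ M) → (Q.1 ≤ N ∧ Q.2 ≤ M) → ‖D Q - D P‖ < ‖D P‖) :
    ∃ θ : ℕ × ℕ → ℝ, (∀ P, ((θ P : ℝ) : Real.Angle) = ang (D P)) ∧
      Prim (fun P => P.1 ≤ N ∧ P.2 ≤ M) (fun P Q => om (D P) (D Q)) θ := by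
  have sh : ∀ i j, Step (i, j) (i + 1, j) := fun i j =>
    Or.inl ⟨rfl, by simp only; omega, by simp only; omega⟩
  have sv : ∀ i j, Step (i, j) (i, j + 1) := fun i j =>
    Or.inr ⟨rfl, by simp only; omega, by simp only; omega⟩
  have hor : ∀ i j, i + 1 ≤ N → j ≤ M →
      colL D (i + 1) j - colL D i j = om (D (i, j)) (D (i + 1, j)) := by
    intro i j hi hj
    induction j with
    | zero => simp [colL, rowL]
    | succ j ih =>
      have ih := ih (by omega)
      apply eq_of_angle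
      · rw [Real.Angle.coe_sub, colL_coe, colL_coe, om_coe]
      · have a1 := abs_lt.1 (om_small (h _ _ (sh i j) ⟨by simp only; omega, by simp only; omega⟩
          ⟨hi, by simp only; omega⟩))
        have a2 := abs_lt.1 (om_small (h _ _ (sh i (j + 1)) ⟨by simp only; omega, hj⟩ ⟨hi, hj⟩))
        have a3 := abs_lt.1 (om_small (h _ _ (sv i j) ⟨by simp only; omega, by simp only; omega⟩
          ⟨by simp only; omega, hj⟩))
        have a4 := abs_lt.1 (om_small (h _ _ (sv (i + 1) j) ⟨hi, by simp only; omega⟩ ⟨hi, hj⟩))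
        simp only [colL]
        rw [abs_lt]; constructor <;> linarith
  refine ⟨fun P => colL D P.1 P.2, fun P => colL_coe D P.1 P.2, ?_⟩
  rintro ⟨i, j⟩ ⟨i', j'⟩ st s1 s2
  have anti := om_anti (h _ _ st s1 s2) (h _ _ st.symm s2 s1)
  simp only at s1 s2 ⊢
  rcases st with ⟨e, a, b⟩ | ⟨e, a, b⟩ <;> simp only at e a b <;> subst e
  · rcases lt_trichotomy i i' with c | c | c
    · have : i' = i + 1 := by omega
      subst this
      exact hor i j s2.1 s2.2
    · subst c; simp [om_self]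
    · have : i = i' + 1 := by omega
      subst this
      have := hor i' j s1.1 s1.2
      linarith
  · rcases lt_trichotomy j j' with c | c | c
    · have : j' = j + 1 := by omega
      subst this
      simp [colL]
    · subst c; simp [om_self]
    · have : j = j' + 1 := by omega
      subst this
      simp only [colL]
      linarith

end Pool.Agent.MP_1f2e48_gt

end MrgPart2

-- marker of a merged file
example : 731051 + 599332 = 731051 + 599332 := rfl
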