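import Mathlib.Topology.Sheaves.Presheaf
import Mathlib.Data.Int.Star
import Mathlib.Algebra.Order.Ring.Star
import Mathlib.Order.Interval.Finset.Box
import Pool.Agent.MP_1f2e48_gt.Lift

-- ======== part 0: formerly Pool.Agent.MP_1f2e48_gt.Words
section MrgPart0

set_option autoImplicit false

namespace Pool.Agent.MP_1f2e48_gt

abbrev V := ℤ × ℤ

/-- lattice point at depth `i` on leg `l` -/
def pt (l : Fin 3) (i : ℕ) : V :=
  if l = 0 then ((i : ℤ), 0) else if l = 1 then (0, (i : ℤ)) else (-(i : ℤ), 0)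

def dd (u v : V) : ℕ := (u.1 - v.1).natAbs + (u.2 - v.2).natAbs

def VV (n : ℕ) : Set V := {v | ∃ l i, i ≤ n ∧ v = pt l i}

theorem pt_zero (l : Fin 3) : pt l 0 = (0, 0) := by
  unfold pt; split_ifs <;> simp

theorem dd_self (u : V) : dd u u = 0 := by simp [dd]

theorem dd_comm (u v : V) : dd u v = dd v u := by unfold dd; omega

theorem dd_tri (u v w : V) : dd u w ≤ dd u v + dd v w := by unfold dd; omega

theorem dd_same (l : Fin 3) (i j : ℕ) : dd (pt l i) (pt l j) = (i - j) + (j - i) := by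
  unfold dd pt; split_ifs <;> simp only <;> omega

theorem dd_diff {l l' : Fin 3} (h : l ≠ l') (i j : ℕ) : dd (pt l i) (pt l' j) = i + j := by
  fin_cases l <;> fin_cases l' <;> simp [dd, pt] at h ⊢ <;> omega

theorem dd_eq_zero {u v : V} (h : dd u v = 0) : u = v := by
  unfold dd at h
  ext <;> omega

inductive Mk
  | o | p | a | q | b | c
  deriving DecidableEq

structure Dat where
  n : ℕ
  a : ℕ
  b : ℕ

def Dat.ok (d : Dat) : Prop := d.a ≤ d.n ∧ d.b ≤ d.n

def Mk.leg : Mk → Fin 3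
  | .o => 0 | .p => 0 | .a => 0 | .q => 1 | .b => 1 | .c => 2

def Mk.rank : Mk → ℕ
  | .o => 0 | .p => 1 | .a => 2 | .q => 1 | .b => 2 | .c => 2

def dep (d : Dat) : Mk → ℕ
  | .o => 0 | .p => d.a | .a => d.n | .q => d.b | .b => d.n | .c => d.n

def rho (d : Dat) (u : Mk) : V := pt u.leg (dep d u)

def seg (d : Dat) (u v : Mk) (t : ℕ) : V :=
  if u.rank < v.rank then pt v.leg (dep d u + t) else pt u.leg (dep d u - t)

def len (d : Dat) (u v : Mk) : ℕ :=
  if u.rank < v.rank then dep d v - dep d u else dep d u - dep d v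

def rad (u v : Mk) : Bool :=
  decide ((u.rank < v.rank ∧ (u = .o ∨ u.leg = v.leg)) ∨
    (v.rank < u.rank ∧ (v = .o ∨ v.leg = u.leg)))

def gam (d : Dat) : List Mk → ℕ → V
  | [], _ => (0, 0)
  | [u], _ => rho d u
  | u :: v :: w, t => if t ≤ len d u v then seg d u v t else gam d (v :: w) (t - len d u v)

def tot (d : Dat) : List Mk → ℕ
  | [] => 0
  | [_] => 0
  | u :: v :: w => len d u v + tot d (v :: w)

def valid : List Mk → Bool
  | [] => true
  | [_] => true
  | u :: v :: w => rad u v && valid (v :: w)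

def idx (d : Dat) (w : List Mk) (j : ℕ) : ℕ := tot d (w.take (j + 1))

variable {d : Dat}

theorem rad_symm {u v : Mk} (h : rad u v = true) : rad v u = true := by
  revert h; cases u <;> cases v <;> decide

theorem seg_zero {u v : Mk} (h : rad u v = true) : seg d u v 0 = rho d u := by
  cases u <;> cases v <;> first | exact absurd h (by decide) |
    simp [seg, rho, Mk.rank, Mk.leg, dep, pt_zero]

theorem seg_len (hd : d.ok) {u v : Mk} (h : rad u v = true) : seg d u v (len d u v) = rho d v := by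
  obtain ⟨h1, h2⟩ := hd
  cases u <;> cases v <;> first | exact absurd h (by decide) |
    simp [seg, len, rho, Mk.rank, Mk.leg, dep, pt_zero, h1, h2, Nat.sub_sub_self]

theorem len_symm {u v : Mk} (h : rad u v = true) : len d v u = len d u v := by
  cases u <;> cases v <;> first | exact absurd h (by decide) | simp [len, Mk.rank]

theorem seg_rev (hd : d.ok) {u v : Mk} (h : rad u v = true) {t : ℕ} (ht : t ≤ len d u v) :
    seg d v u t = seg d u v (len d u v - t) := by
  obtain ⟨h1, h2⟩ := hd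
  cases u <;> cases v <;> first | exact absurd h (by decide) |
    (simp [seg, len, Mk.rank, Mk.leg, dep] at ht ⊢ <;> (congr 1; omega))

theorem seg_mem (hd : d.ok) {u v : Mk} (h : rad u v = true) {t : ℕ} (ht : t ≤ len d u v) :
    seg d u v t ∈ VV d.n := by
  obtain ⟨h1, h2⟩ := hd
  cases u <;> cases v <;> first | exact absurd h (by decide) |
    (simp only [seg, len, Mk.rank, Mk.leg, dep] at ht ⊢
     norm_num at ht ⊢
     exact ⟨_, _, by omega, rfl⟩)

theorem seg_lip (u v : Mk) (t : ℕ) : dd (seg d u v t) (seg d u v (t + 1)) ≤ 1 := by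
  unfold seg
  split_ifs <;> rw [dd_same] <;> omega

theorem rho_mem (hd : d.ok) (u : Mk) : rho d u ∈ VV d.n := by
  obtain ⟨h1, h2⟩ := hd
  refine ⟨u.leg, dep d u, ?_, rfl⟩
  cases u <;> simp [dep, h1, h2]

theorem gam_zero {u : Mk} {w : List Mk} (h : valid (u :: w) = true) :
    gam d (u :: w) 0 = rho d u := by
  cases w with
  | nil => rfl
  | cons v w =>
    simp only [valid, Bool.and_eq_true] at h
    simp [gam, seg_zero h.1]

theorem gam_mem (hd : d.ok) : ∀ (w : List Mk), valid w = true → ∀ t, gam d w t ∈ VV d.n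
  | [], _, _ => ⟨0, 0, Nat.zero_le _, (pt_zero 0).symm⟩
  | [u], _, _ => rho_mem hd u
  | u :: v :: w, h, t => by
    simp only [valid, Bool.and_eq_true] at h
    rw [gam]
    split_ifs with e
    · exact seg_mem hd h.1 e
    · exact gam_mem hd (v :: w) h.2 _

theorem gam_lip1 (hd : d.ok) :
    ∀ (w : List Mk), valid w = true → ∀ t, dd (gam d w t) (gam d w (t + 1)) ≤ 1
  | [], _, _ => by simp [gam, dd]
  | [u], _, _ => by simp [gam, dd]
  | u :: v :: w, h, t => by
    simp only [valid, Bool.and_eq_true] at h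
    rw [gam, gam]
    have ih := gam_lip1 hd (v :: w) h.2 (t - len d u v)
    split_ifs with e1 e2 e2
    · exact seg_lip u v t
    · have : t = len d u v := by omega
      subst this
      rw [seg_len hd h.1, ← gam_zero h.2]
      simpa using ih
    · omega
    · have : t + 1 - len d u v = t - len d u v + 1 := by omega
      rw [this]; exact ih

theorem gam_lip (hd : d.ok) {w : List Mk} (h : valid w = true) (s t : ℕ) :
    dd (gam d w s) (gam d w t) ≤ (s - t) + (t - s) := by
  have key : ∀ s k, dd (gam d w s) (gam d w (s + k)) ≤ k := by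
    intro s k
    induction k with
    | zero => simp [dd]
    | succ k ih =>
      have := gam_lip1 hd w h (s + k)
      have := dd_tri (gam d w s) (gam d w (s + k)) (gam d w (s + k + 1))
      rw [← add_assoc]; omega
  rcases le_total s t with e | e
  · have := key s (t - s)
    rw [Nat.add_sub_cancel' e] at this; omega
  · have := key t (s - t)
    rw [Nat.add_sub_cancel' e, dd_comm] at this; omega

theorem valid_app : ∀ (L : List Mk) (u : Mk) (R : List Mk),
    valid (L ++ u :: R) = (valid (L ++ [u]) && valid (u :: R))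
  | [], u, R => by simp [valid]
  | [x], u, R => by simp [valid]
  | x :: y :: L, u, R => by
    have := valid_app (y :: L) u R
    simp only [List.cons_append, valid] at this ⊢
    rw [this, Bool.and_assoc]

theorem tot_app : ∀ (L : List Mk) (u : Mk) (R : List Mk),
    tot d (L ++ u :: R) = tot d (L ++ [u]) + tot d (u :: R)
  | [], u, R => by simp [tot]
  | [x], u, R => by simp [tot]
  | x :: y :: L, u, R => by
    have := tot_app (y :: L) u R
    simp only [List.cons_append, tot] at this ⊢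
    omega

theorem gam_app_left (hd : d.ok) : ∀ (L : List Mk) (u : Mk) (R : List Mk),
    valid (L ++ u :: R) = true → ∀ t, t ≤ tot d (L ++ [u]) →
      gam d (L ++ u :: R) t = gam d (L ++ [u]) t
  | [], u, R, h, t, ht => by
    simp only [List.nil_append, tot] at ht h ⊢
    have : t = 0 := by omega
    subst this
    rw [gam_zero h]; rfl
  | [x], u, R, h, t, ht => by
    simp only [List.cons_append, List.nil_append, tot] at ht ⊢
    simp only [gam]
    rw [if_pos (by omega), if_pos (by omega)]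
  | x :: y :: L, u, R, h, t, ht => by
    simp only [List.cons_append, valid, Bool.and_eq_true, tot] at h ht ⊢
    simp only [gam]
    split_ifs with e
    · rfl
    · exact gam_app_left hd (y :: L) u R h.2 _ (by simp only [List.cons_append]; omega)

theorem gam_app_right (hd : d.ok) : ∀ (L : List Mk) (u : Mk) (R : List Mk),
    valid (L ++ u :: R) = true → ∀ t,
      gam d (L ++ u :: R) (tot d (L ++ [u]) + t) = gam d (u :: R) t
  | [], u, R, h, t => by simp [tot]
  | [x], u, R, h, t => by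
    simp only [List.cons_append, List.nil_append, valid, Bool.and_eq_true, tot] at h ⊢
    simp only [gam]
    split_ifs with e
    · have : t = 0 := by omega
      subst this
      simp only [add_zero]
      rw [seg_len hd h.1, gam_zero h.2]
    · congr 1; omega
  | x :: y :: L, u, R, h, t => by
    have ih := gam_app_right hd (y :: L) u R (by
      simp only [List.cons_append, valid, Bool.and_eq_true] at h ⊢; exact h.2) t
    simp only [List.cons_append, valid, Bool.and_eq_true, tot] at h ih ⊢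
    simp only [gam]
    split_ifs with e
    · have e1 : tot d (y :: (L ++ [u])) + t = 0 := by omega
      have e2 : len d x y + tot d (y :: (L ++ [u])) + t = len d x y := by omega
      rw [e2, seg_len hd h.1, ← ih, e1, gam_zero h.2]
    · rw [← ih]; congr 1; omega

theorem valid_rev : ∀ (w : List Mk), valid w = true → valid w.reverse = true
  | [], _ => rfl
  | [_], _ => rfl
  | u :: v :: w, h => by
    simp only [valid, Bool.and_eq_true] at h
    have ih := valid_rev (v :: w) h.2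
    have e : (u :: v :: w).reverse = w.reverse ++ v :: [u] := by simp
    have e2 : (v :: w).reverse = w.reverse ++ [v] := by simp
    rw [e, valid_app, ← e2, ih]
    simp [valid, rad_symm h.1]

theorem tot_rev : ∀ (w : List Mk), valid w = true → tot d w.reverse = tot d w
  | [], _ => rfl
  | [_], _ => rfl
  | u :: v :: w, h => by
    simp only [valid, Bool.and_eq_true] at h
    have ih := tot_rev (v :: w) h.2
    have e : (u :: v :: w).reverse = w.reverse ++ v :: [u] := by simp
    have e2 : (v :: w).reverse = w.reverse ++ [v] := by simp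
    rw [e, tot_app, ← e2, ih]
    simp only [tot, len_symm h.1]; omega

theorem gam_rev (hd : d.ok) : ∀ (w : List Mk), valid w = true → ∀ t, t ≤ tot d w →
    gam d w.reverse t = gam d w (tot d w - t)
  | [], _, _, _ => rfl
  | [_], _, _, _ => rfl
  | u :: v :: w, h, t, ht => by
    have hv := valid_rev _ h
    simp only [valid, Bool.and_eq_true] at h
    have ih := gam_rev hd (v :: w) h.2
    have tr := tot_rev (d := d) (v :: w) h.2
    have e : (u :: v :: w).reverse = w.reverse ++ v :: [u] := by simp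
    have e2 : (v :: w).reverse = w.reverse ++ [v] := by simp
    rw [e] at hv ⊢
    rw [e2] at ih tr
    simp only [tot] at ht ⊢
    by_cases c : t ≤ tot d (v :: w)
    · rw [gam_app_left hd _ _ _ hv t (by omega), ih t c]
      have := gam_app_right hd [u] v w (by simp [valid, h.1, h.2]) (tot d (v :: w) - t)
      simp only [List.cons_append, List.nil_append, tot] at this
      rw [← this]; congr 1; omega
    · have := gam_app_right hd _ _ _ hv (t - tot d (v :: w))
      have e3 : tot d (w.reverse ++ [v]) + (t - tot d (v :: w)) = t := by omega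
      rw [e3] at this
      rw [this]
      simp only [gam]
      have ls := len_symm (d := d) h.1
      rw [if_pos (by omega), if_pos (by omega), seg_rev hd h.1 (by omega)]
      congr 1; omega

/-- `X` is traced inside `Z` from position `I` to position `J` -/
def SubW (d : Dat) (Z X : List Mk) (I J : ℕ) : Prop :=
  ∃ φ : ℕ → ℕ, Lip φ ∧ (∀ t, t ≤ tot d X → φ t ≤ tot d Z ∧ gam d Z (φ t) = gam d X t) ∧
    φ 0 = idx d Z I ∧ φ (tot d X) = idx d Z J

theorem subW_fwd (hd : d.ok) {Z X : List Mk} (hZ : valid Z = true) {I J : ℕ}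
    (h1 : J + 1 = I + X.length) (h0 : I ≤ J) (h2 : (Z.drop I).take X.length = X) :
    valid X = true ∧ SubW d Z X I J := by
  obtain ⟨u, X', rfl⟩ : ∃ u X', X = u :: X' := by
    cases X with
    | nil => simp at h1; omega
    | cons u X' => exact ⟨u, X', rfl⟩
  obtain ⟨X0, v, eX⟩ : ∃ X0 v, u :: X' = X0 ++ [v] := by
    rcases List.eq_nil_or_concat (u :: X') with h | ⟨L, v, h⟩
    · simp at h
    · exact ⟨L, v, by simpa using h⟩
  set R := (Z.drop I).drop (u :: X').length
  set L := Z.take I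
  have eZ : Z = L ++ u :: (X' ++ R) := by
    have a1 : Z = L ++ Z.drop I := (List.take_append_drop I Z).symm
    have a2 : Z.drop I = (u :: X') ++ R := by
      conv_lhs => rw [← List.take_append_drop (u :: X').length (Z.drop I), h2]
    rw [a2] at a1
    simpa using a1
  have lL : L.length = I := by
    have : (u :: X').length ≤ (Z.drop I).length := by
      rw [← h2]; simp
    simp only [List.length_drop, List.length_cons] at this
    simp only [L, List.length_take]; omega
  have v1 : valid (u :: (X' ++ R)) = true := by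
    rw [eZ, valid_app, Bool.and_eq_true] at hZ; exact hZ.2
  have e2 : u :: (X' ++ R) = X0 ++ v :: R := by
    have : u :: (X' ++ R) = (u :: X') ++ R := rfl
    rw [this, eX]; simp
  have v2 : valid (u :: X') = true := by
    rw [e2, valid_app, Bool.and_eq_true] at v1; rw [eX]; exact v1.1
  have t1 : tot d Z = tot d (L ++ [u]) + (tot d (u :: X') + tot d (v :: R)) := by
    have z1 := tot_app (d := d) L u (X' ++ R)
    have z2 := tot_app (d := d) X0 v R
    rw [← eZ] at z1
    rw [← e2, ← eX] at z2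
    omega
  refine ⟨v2, fun t => tot d (L ++ [u]) + t, fun i => by simp only; omega, ?_, ?_, ?_⟩
  · intro t ht
    refine ⟨by simp only; omega, ?_⟩
    simp only
    conv_lhs => rw [eZ]
    rw [gam_app_right hd _ _ _ (eZ ▸ hZ), e2, gam_app_left hd _ _ _ (e2 ▸ v1) t (eX ▸ ht), ← eX]
  · simp only [idx, add_zero]
    congr 1
    conv_rhs => rw [eZ]
    rw [← lL, List.take_length_add_append]; simp
  · simp only [idx]
    rw [← tot_app]
    congr 1
    conv_rhs => rw [eZ]
    rw [h1, ← lL, List.take_length_add_append]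
    simp

theorem subW_rev (hd : d.ok) {Z X : List Mk} {I J : ℕ} (hX : valid X.reverse = true)
    (h : SubW d Z X.reverse J I) : SubW d Z X I J := by
  obtain ⟨φ, h1, h2, h3, h4⟩ := h
  have hX' : valid X = true := by simpa using valid_rev _ hX
  have tr := tot_rev (d := d) X hX'
  rw [tr] at h2 h4
  refine ⟨fun t => φ (tot d X - t), h1.comp (v := fun t => tot d X - t) (fun i => by simp only; omega), ?_,
    by simpa using h4,
    by simpa using h3⟩
  intro t ht
  have := h2 (tot d X - t) (by omega)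
  refine ⟨this.1, ?_⟩
  rw [this.2, gam_rev hd X hX' _ (by omega)]
  congr 1; omega

def sub (Z X : List Mk) (I J : ℕ) : Bool :=
  valid Z && decide (if I ≤ J then J + 1 = I + X.length ∧ (Z.drop I).take X.length = X
    else I + 1 = J + X.length ∧ (Z.drop J).take X.length = X.reverse)

theorem sub_sound (hd : d.ok) {Z X : List Mk} {I J : ℕ} (h : sub Z X I J = true) :
    SubW d Z X I J := by
  simp only [sub, Bool.and_eq_true, decide_eq_true_eq] at h
  obtain ⟨hZ, h⟩ := h
  split_ifs at h with e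
  · exact (subW_fwd hd hZ h.1 e h.2).2
  · have := subW_fwd hd hZ (X := X.reverse) (I := J) (J := I) (by simpa using h.1) (by omega)
      (by simpa using h.2)
    exact subW_rev hd this.1 this.2

def SW (d : Dat) (Ap : V → V → Prop) (X Y : List Mk) (P : ℕ × ℕ) : Prop :=
  P.1 ≤ tot d X ∧ P.2 ≤ tot d Y ∧ Ap (gam d X P.1) (gam d Y P.2)

def oW (d : Dat) (Ω : V × V → V × V → ℝ) (X Y : List Mk) (P Q : ℕ × ℕ) : ℝ :=
  Ω (gam d X P.1, gam d Y P.2) (gam d X Q.1, gam d Y Q.2)

/-- connection between two corners of a word rectangle -/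
def Cb (d : Dat) (Ap : V → V → Prop) (Ω : V × V → V × V → ℝ) (X Y : List Mk)
    (b c b' c' : Bool) (r : ℝ) : Prop :=
  Val (SW d Ap X Y) (oW d Ω X Y) (cr b (tot d X), cr c (tot d Y))
    (cr b' (tot d X), cr c' (tot d Y)) r

/-- connection between two vertex pairs of a word rectangle -/
def Cl (d : Dat) (Ap : V → V → Prop) (Ω : V × V → V × V → ℝ) (X Y : List Mk)
    (i j i' j' : ℕ) (r : ℝ) : Prop :=
  Val (SW d Ap X Y) (oW d Ω X Y) (idx d X i, idx d Y j) (idx d X i', idx d Y j') r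

variable {Ap : V → V → Prop} {Ω : V × V → V × V → ℝ}

theorem Cb.use (hd : d.ok) {X Y : List Mk} {b c b' c' : Bool} {r : ℝ}
    (h : Cb d Ap Ω X Y b c b' c' r) (Z W : List Mk) (I J K L i j i' j' : ℕ)
    (hc : (sub Z X I J && sub W Y K L && decide (i = (if b then J else I) ∧
      j = (if c then L else K) ∧ i' = (if b' then J else I) ∧ j' = (if c' then L else K))) = true) :
    Cl d Ap Ω Z W i j i' j' r := by
  simp only [Bool.and_eq_true, decide_eq_true_eq] at hc
  obtain ⟨⟨h1, h2⟩, rfl, rfl, rfl, rfl⟩ := hc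
  obtain ⟨φ, a1, a2, a3, a4⟩ := sub_sound hd h1
  obtain ⟨ψ, b1, b2, b3, b4⟩ := sub_sound hd h2
  have e1 : ∀ x : Bool, idx d Z (if x then J else I) = φ (cr x (tot d X)) := by
    intro x; cases x <;> simp [cr, a3, a4]
  have e2 : ∀ x : Bool, idx d W (if x then L else K) = ψ (cr x (tot d Y)) := by
    intro x; cases x <;> simp [cr, b3, b4]
  unfold Cl
  rw [e1, e1, e2, e2]
  refine Val.map (fun P => (φ P.1, ψ P.2)) ?_ ?_ ?_ h
  · rintro ⟨x, y⟩ ⟨x', y'⟩ st - -
    rcases st with ⟨e, s1, s2⟩ | ⟨e, s1, s2⟩ <;> simp only at e s1 s2 <;> subst e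
    · left
      refine ⟨rfl, ?_⟩
      rcases le_total x x' with f | f <;> have := a1.bound' f <;> simp only <;> omega
    · right
      refine ⟨rfl, ?_⟩
      rcases le_total y y' with f | f <;> have := b1.bound' f <;> simp only <;> omega
  · rintro P ⟨s1, s2, s3⟩
    refine ⟨(a2 _ s1).1, (b2 _ s2).1, ?_⟩
    simp only [(a2 _ s1).2, (b2 _ s2).2]; exact s3
  · rintro P Q - ⟨s1, s2, -⟩ ⟨t1, t2, -⟩
    simp only [oW, (a2 _ s1).2, (b2 _ s2).2, (a2 _ t1).2, (b2 _ t2).2]

theorem Cb.swap (hd : d.ok) (hA : ∀ u v, Ap u v → Ap v u)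
    (hΩ : ∀ u v u' v', u ∈ VV d.n → v ∈ VV d.n → u' ∈ VV d.n → v' ∈ VV d.n → Ap u v → Ap u' v' →
      Ω (v, u) (v', u') = Ω (u, v) (u', v'))
    {X Y : List Mk} (hX : valid X = true) (hY : valid Y = true) {b c b' c' : Bool} {r : ℝ}
    (h : Cb d Ap Ω X Y b c b' c' r) : Cb d Ap Ω Y X c b c' b' r :=
  Val.map Prod.swap (fun _ _ st _ _ => st.swap) (fun _ s => ⟨s.2.1, s.1, hA _ _ s.2.2⟩)
    (fun _ _ _ s t => hΩ _ _ _ _ (gam_mem hd X hX _) (gam_mem hd Y hY _) (gam_mem hd X hX _)
      (gam_mem hd Y hY _) s.2.2 t.2.2) h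

theorem Cl.symm0 {X Y : List Mk} {i j i' j' : ℕ} (h : Cl d Ap (fun _ _ => 0) X Y i j i' j' 0) :
    Cl d Ap (fun _ _ => 0) X Y i' j' i j 0 := Val.symm0 h

theorem Cl.trans0 {X Y : List Mk} {i j i' j' i'' j'' : ℕ}
    (h : Cl d Ap (fun _ _ => 0) X Y i j i' j' 0) (h' : Cl d Ap (fun _ _ => 0) X Y i' j' i'' j'' 0) :
    Cl d Ap (fun _ _ => 0) X Y i j i'' j'' 0 := Val.trans0 h h'

theorem idx_cr (X : List Mk) (x : Bool) :
    idx d X (if x then X.length - 1 else 0) = cr x (tot d X) := by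
  cases x
  · cases X with
    | nil => rfl
    | cons u X => simp [idx, cr, tot]
  · simp only [idx, cr, if_true]
    rw [List.take_of_length_le (by omega)]

theorem Cl.toCb {X Y : List Mk} {i j i' j' : ℕ} {r : ℝ} (h : Cl d Ap Ω X Y i j i' j' r)
    (b c b' c' : Bool)
    (hc : i = (if b then X.length - 1 else 0) ∧ j = (if c then Y.length - 1 else 0) ∧
      i' = (if b' then X.length - 1 else 0) ∧ j' = (if c' then Y.length - 1 else 0)) :
    Cb d Ap Ω X Y b c b' c' r := by
  obtain ⟨rfl, rfl, rfl, rfl⟩ := hc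
  unfold Cl at h
  rw [idx_cr, idx_cr, idx_cr, idx_cr] at h
  exact h

end Pool.Agent.MP_1f2e48_gt

end MrgPart0

-- ======== part 1: formerly Pool.Agent.MP_1f2e48_gt.Levels
section MrgPart1

set_option autoImplicit false

namespace Pool.Agent.MP_1f2e48_gt

open Mk

def pat (l : Fin 3) : List Mk :=
  if l = 0 then [c, o, p, o, q, b] else if l = 1 then [c, o, q, o, p, a] else [c, o, p, a, p, o, c]

def wd : Mk → List Mk
  | .o => [c]
  | .p => [c, o, p, o, q]
  | .a => [c, o, p, o, q, b]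
  | .q => [c, o, q, o, p]
  | .b => [c, o, q, o, p, a]
  | .c => [c, o, p, a, p, o, c]

def geo : Mk → List Mk
  | .o => [o]
  | .p => [o, p]
  | .a => [o, p, a]
  | .q => [o, q]
  | .b => [o, q, b]
  | .c => [o, c]

def join (U W : List Mk) : List Mk := U.reverse ++ W.tail

def arc (m1 m2 : Mk) : List Mk := join (geo m1) (geo m2)
def lft (m1 m2 : Mk) : List Mk := join (wd m1) (wd m2)

noncomputable def cc (d : Dat) (l : Fin 3) : ℕ → ℕ := cw (tot d (pat l))

noncomputable def next (d : Dat) : Dat where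
  n := 2 * (cN (tot d (pat 0)) + cN (tot d (pat 1)) + cN (tot d (pat 2)))
  a := 2 * hit (cc d 0) (tot d (wd p))
  b := 2 * hit (cc d 1) (tot d (wd q))

noncomputable def Q (d : Dat) (ε : ℕ) (v : V) : V :=
  if 0 < v.2 then gam d (pat 1) (cc d 1 ((v.2.toNat + ε) / 2))
  else if 0 ≤ v.1 then gam d (pat 0) (cc d 0 ((v.1.toNat + ε) / 2))
  else gam d (pat 2) (cc d 2 (((-v.1).toNat + ε) / 2))

variable {d : Dat}

theorem pat_valid (l : Fin 3) : valid (pat l) = true := by revert l; decide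

theorem cc_zero (l : Fin 3) : cc d l 0 = 0 := (cw_spec _).1
theorem cc_le (l : Fin 3) (i : ℕ) : cc d l i ≤ tot d (pat l) := (cw_spec _).2.2.1 i
theorem cc_lip (l : Fin 3) : Lip (cc d l) := (cw_spec _).2.2.2.1
theorem cc_crooked (l : Fin 3) : Crooked (cc d l) := (cw_spec _).2.2.2.2
theorem cc_top (l : Fin 3) {i : ℕ} (h : (next d).n / 2 ≤ i) : cc d l i = tot d (pat l) := by
  refine (cw_spec _).2.1 i ?_
  simp only [next] at h
  fin_cases l <;> simp only [Fin.zero_eta, Fin.mk_one, Fin.reduceFinMk] <;> omega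

theorem pat_zero (l : Fin 3) : gam d (pat l) 0 = rho d c := by
  fin_cases l <;> exact gam_zero (by decide)

theorem Q_pt {ε : ℕ} (hε : ε ≤ 1) (l : Fin 3) (i : ℕ) :
    Q d ε (pt l i) = gam d (pat l) (cc d l ((i + ε) / 2)) := by
  rcases Nat.eq_zero_or_pos i with rfl | hi
  · have : (0 + ε) / 2 = 0 := by omega
    rw [pt_zero, this, cc_zero, pat_zero]
    simp only [Q, lt_irrefl, if_false, le_refl, if_true, Int.toNat_zero, this, cc_zero, pat_zero]
  · have h1 : i ≠ 0 := by omega
    fin_cases l <;> simp [Q, pt, hi, h1]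

theorem Q_mem (hd : d.ok) (ε : ℕ) (v : V) : Q d ε v ∈ VV d.n := by
  unfold Q
  split_ifs <;> exact gam_mem hd _ (pat_valid _) _

/-- the leg map of the bonding map -/
noncomputable def gg (d : Dat) (l : Fin 3) (i : ℕ) : ℕ := cc d l (i / 2)

theorem gg_lip (l : Fin 3) : Lip (gg d l) := (cc_lip l).comp lip_half

theorem gg_LW (l : Fin 3) : LW (gg d l) (next d).n (tot d (pat l)) :=
  ⟨cc_zero l, cc_top l le_rfl, fun _ _ => cc_le l _, gg_lip l⟩

theorem gg_crooked (l : Fin 3) : Crooked (gg d l) := (cc_crooked l).half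

theorem Q0_pt (l : Fin 3) (i : ℕ) : Q d 0 (pt l i) = gam d (pat l) (gg d l i) :=
  Q_pt (Nat.zero_le 1) l i

theorem tot_pq : tot d (wd p) ≤ tot d (pat 0) ∧ tot d (wd q) ≤ tot d (pat 1) := by
  have h1 := tot_app (d := d) [c, o, p, o] q [b]
  have h2 := tot_app (d := d) [c, o, q, o] p [a]
  exact ⟨by change tot d ([c, o, p, o] ++ [q]) ≤ tot d ([c, o, p, o] ++ q :: [b]); omega,
    by change tot d ([c, o, q, o] ++ [p]) ≤ tot d ([c, o, q, o] ++ p :: [a]); omega⟩

theorem hit_p : cc d 0 (hit (cc d 0) (tot d (wd p))) = tot d (wd p) ∧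
    hit (cc d 0) (tot d (wd p)) ≤ (next d).n / 2 ∧
    ∀ i, i ≤ hit (cc d 0) (tot d (wd p)) → cc d 0 i ≤ tot d (wd p) :=
  hit_spec (cc_lip 0) (cc_zero 0) (by rw [cc_top 0 le_rfl]; exact tot_pq.1)

theorem hit_q : cc d 1 (hit (cc d 1) (tot d (wd q))) = tot d (wd q) ∧
    hit (cc d 1) (tot d (wd q)) ≤ (next d).n / 2 ∧
    ∀ i, i ≤ hit (cc d 1) (tot d (wd q)) → cc d 1 i ≤ tot d (wd q) :=
  hit_spec (cc_lip 1) (cc_zero 1) (by rw [cc_top 1 le_rfl]; exact tot_pq.2)

theorem next_ok : (next d).ok := by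
  have h1 := (hit_p (d := d)).2.1
  have h2 := (hit_q (d := d)).2.1
  constructor
  · change 2 * _ ≤ _; omega
  · change 2 * _ ≤ _; omega

theorem tot_pat (hd : d.ok) : tot d (pat 0) = 2 * d.n + 2 * d.a ∧
    tot d (pat 1) = 2 * d.n + 2 * d.b ∧ tot d (pat 2) = 4 * d.n := by
  obtain ⟨h1, h2⟩ := hd
  simp [pat, tot, len, Mk.rank, dep]
  omega

theorem next_pos (hd : d.ok) (h : 0 < d.n) : 0 < (next d).n := by
  by_contra hc
  have := cc_top (d := d) 0 (i := 0) (by omega)
  rw [cc_zero, (tot_pat hd).1] at this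
  omega

theorem half_lemma (hd : d.ok) (m : Mk) : ∃ w, LW w (dep (next d) m) (tot d (wd m)) ∧
    ∀ t, t ≤ dep (next d) m → Q d 0 (pt m.leg t) = gam d (wd m) (w t) := by
  cases m with
  | o =>
    refine ⟨fun _ => 0, ⟨rfl, rfl, fun _ _ => le_rfl, fun _ => by simp⟩, fun t ht => ?_⟩
    have : t = 0 := by simpa [dep] using ht
    subst this
    rw [Q0_pt]
    simp only [gg, Nat.zero_div, cc_zero, pat_zero]; rfl
  | p =>
    obtain ⟨h1, h2, h3⟩ := hit_p (d := d)
    have h4 : ∀ t, t ≤ dep (next d) p → gg d 0 t ≤ tot d (wd p) := fun t ht =>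
      h3 _ (by change t ≤ 2 * _ at ht; omega)
    refine ⟨gg d 0, ⟨cc_zero 0, ?_, h4, gg_lip 0⟩, fun t ht => ?_⟩
    · change cc d 0 (2 * _ / 2) = _
      rw [Nat.mul_div_cancel_left _ (by norm_num)]; exact h1
    · rw [show Mk.leg p = 0 from rfl, Q0_pt]
      exact gam_app_left hd [c, o, p, o] q [b] (by decide) _ (h4 t ht)
  | a => exact ⟨gg d 0, gg_LW 0, fun t _ => Q0_pt 0 t⟩
  | q =>
    obtain ⟨h1, h2, h3⟩ := hit_q (d := d)
    have h4 : ∀ t, t ≤ dep (next d) q → gg d 1 t ≤ tot d (wd q) := fun t ht =>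
      h3 _ (by change t ≤ 2 * _ at ht; omega)
    refine ⟨gg d 1, ⟨cc_zero 1, ?_, h4, gg_lip 1⟩, fun t ht => ?_⟩
    · change cc d 1 (2 * _ / 2) = _
      rw [Nat.mul_div_cancel_left _ (by norm_num)]; exact h1
    · rw [show Mk.leg q = 1 from rfl, Q0_pt]
      exact gam_app_left hd [c, o, q, o] p [a] (by decide) _ (h4 t ht)
  | b => exact ⟨gg d 1, gg_LW 1, fun t _ => Q0_pt 1 t⟩
  | c => exact ⟨gg d 2, gg_LW 2, fun t _ => Q0_pt 2 t⟩

theorem geo_lemma (hd : d.ok) (m : Mk) : tot d (geo m) = dep d m ∧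
    ∀ t, t ≤ dep d m → gam d (geo m) t = pt m.leg t := by
  obtain ⟨h1, h2⟩ := hd
  cases m with
  | o =>
    refine ⟨rfl, fun t ht => ?_⟩
    have : t = 0 := by simpa [dep] using ht
    subst this; rfl
  | p => exact ⟨by simp [geo, tot, len, Mk.rank, dep], fun t ht => by
      simp only [dep] at ht; simp [geo, gam, seg, len, Mk.rank, dep, ht]⟩
  | q => exact ⟨by simp [geo, tot, len, Mk.rank, dep], fun t ht => by
      simp only [dep] at ht; simp [geo, gam, seg, len, Mk.rank, dep, ht]⟩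
  | c => exact ⟨by simp [geo, tot, len, Mk.rank, dep], fun t ht => by
      simp only [dep] at ht; simp [geo, gam, seg, len, Mk.rank, dep, ht]⟩
  | a =>
    refine ⟨by simp [geo, tot, len, Mk.rank, dep, h1], fun t ht => ?_⟩
    simp only [dep] at ht
    by_cases e : t ≤ d.a
    · simp [geo, gam, seg, len, Mk.rank, dep, e, Mk.leg]
    · have e2 : t - d.a ≤ d.n - d.a := by omega
      have e3 : d.a + (t - d.a) = t := by omega
      simp [geo, gam, seg, len, Mk.rank, dep, e, Mk.leg, e2, e3]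
  | b =>
    refine ⟨by simp [geo, tot, len, Mk.rank, dep, h2], fun t ht => ?_⟩
    simp only [dep] at ht
    by_cases e : t ≤ d.b
    · simp [geo, gam, seg, len, Mk.rank, dep, e, Mk.leg]
    · have e2 : t - d.b ≤ d.n - d.b := by omega
      have e3 : d.b + (t - d.b) = t := by omega
      simp [geo, gam, seg, len, Mk.rank, dep, e, Mk.leg, e2, e3]

theorem join_lemma (hd : d.ok) {x : Mk} {U W : List Mk} (hU : valid (x :: U) = true)
    (hW : valid (x :: W) = true) :
    tot d (join (x :: U) (x :: W)) = tot d (x :: U) + tot d (x :: W) ∧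
    (∀ t, t ≤ tot d (x :: U) →
      gam d (join (x :: U) (x :: W)) t = gam d (x :: U) (tot d (x :: U) - t)) ∧
    ∀ t, gam d (join (x :: U) (x :: W)) (tot d (x :: U) + t) = gam d (x :: W) t := by
  have e : join (x :: U) (x :: W) = U.reverse ++ x :: W := by simp [join]
  have e2 : (x :: U).reverse = U.reverse ++ [x] := by simp
  have hv : valid (U.reverse ++ x :: W) = true := by
    rw [valid_app, ← e2, valid_rev _ hU, hW]; rfl
  have tr := tot_rev (d := d) _ hU
  rw [e]
  refine ⟨by rw [tot_app, ← e2, tr], fun t ht => ?_, fun t => ?_⟩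
  · rw [gam_app_left hd _ _ _ hv t (by rw [← e2, tr]; exact ht), ← e2, gam_rev hd _ hU t ht]
  · rw [← tr, e2]; exact gam_app_right hd _ _ _ hv t

theorem geo_shape (m : Mk) : ∃ U, geo m = o :: U ∧ valid (o :: U) = true := by
  cases m <;> exact ⟨_, rfl, by decide⟩

theorem wd_shape (m : Mk) : ∃ U, wd m = c :: U ∧ valid (c :: U) = true := by
  cases m <;> exact ⟨_, rfl, by decide⟩

theorem arc_lemma (hd : d.ok) (m1 m2 : Mk) :
    ∃ w, LW w (tot (next d) (arc m1 m2)) (tot d (lft m1 m2)) ∧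
      ∀ t, t ≤ tot (next d) (arc m1 m2) →
        Q d 0 (gam (next d) (arc m1 m2) t) = gam d (lft m1 m2) (w t) := by
  obtain ⟨w1, ⟨a0, aN, ale, aL⟩, a5⟩ := half_lemma hd m1
  obtain ⟨w2, ⟨b0, bN, ble, bL⟩, b5⟩ := half_lemma hd m2
  obtain ⟨g1, g2⟩ := geo_lemma (next_ok (d := d)) m1
  obtain ⟨g3, g4⟩ := geo_lemma (next_ok (d := d)) m2
  obtain ⟨U1, e1, v1⟩ := geo_shape m1
  obtain ⟨U2, e2, v2⟩ := geo_shape m2
  obtain ⟨W1, e3, v3⟩ := wd_shape m1
  obtain ⟨W2, e4, v4⟩ := wd_shape m2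
  obtain ⟨j1, j2, j3⟩ := join_lemma (next_ok (d := d)) v1 v2
  obtain ⟨k1, k2, k3⟩ := join_lemma hd v3 v4
  rw [← e1, ← e2] at j1 j3
  rw [← e1, ← e2] at j2
  rw [← e3, ← e4] at k1 k3
  rw [← e3, ← e4] at k2
  unfold arc lft
  rw [j1, k1, g1, g3]
  rw [g1] at j2 j3
  set n1 := dep (next d) m1
  set n2 := dep (next d) m2
  set t1 := tot d (wd m1)
  set t2 := tot d (wd m2)
  let w : ℕ → ℕ := fun t => if t ≤ n1 then t1 - w1 (n1 - t) else t1 + w2 (t - n1)
  have p1 : ∀ t, t ≤ n1 → w t = t1 - w1 (n1 - t) := fun t ht => by simp [w, ht]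
  have p2 : ∀ t, n1 ≤ t → w t = t1 + w2 (t - n1) := by
    intro t ht
    by_cases e : t ≤ n1
    · have : t = n1 := by omega
      subst this
      rw [p1 _ le_rfl, Nat.sub_self, a0, b0]; rfl
    · simp [w, e]
  refine ⟨w, ⟨?_, ?_, ?_, ?_⟩, ?_⟩
  · rw [p1 0 (Nat.zero_le _), Nat.sub_zero, aN, Nat.sub_self]
  · rw [p2 _ (by omega), Nat.add_sub_cancel_left, bN]
  · intro t ht
    by_cases e : t ≤ n1
    · rw [p1 t e]; omega
    · rw [p2 t (by omega)]
      have := ble (t - n1) (by omega); omega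
  · intro t
    by_cases e : t + 1 ≤ n1
    · rw [p1 _ e, p1 t (by omega)]
      have := aL (n1 - (t + 1))
      have e5 : n1 - (t + 1) + 1 = n1 - t := by omega
      rw [e5] at this
      omega
    · rw [p2 _ (by omega), p2 t (by omega)]
      have := bL (t - n1)
      have e5 : t - n1 + 1 = t + 1 - n1 := by omega
      rw [e5] at this
      omega
  · intro t ht
    by_cases e : t ≤ n1
    · rw [j2 t e, g2 _ (by omega), a5 _ (by omega), p1 t e, k2 _ (by omega)]
      have := ale (n1 - t) (by omega)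
      congr 1; omega
    · have e5 : t = n1 + (t - n1) := by omega
      rw [p2 t (by omega), k3]
      conv_lhs => rw [e5]
      rw [j3, g4 _ (by omega), b5 _ (by omega)]

theorem claim_step (hd : d.ok) {Ap : V → V → Prop} {m1 m2 m3 m4 : Mk} {x y x' y' : Bool}
    (h : Cb d Ap (fun _ _ => 0) (lft m1 m2) (lft m3 m4) x y x' y' 0) :
    Cb (next d) (fun u v => Ap (Q d 0 u) (Q d 0 v)) (fun _ _ => 0) (arc m1 m2) (arc m3 m4)
      x y x' y' 0 := by
  obtain ⟨w, hw, ew⟩ := arc_lemma hd m1 m2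
  obtain ⟨v, hv, ev⟩ := arc_lemma hd m3 m4
  have h1 := transfer2 hw hv (fun P s => ⟨s.1, s.2.1⟩) h
  refine Val.map id (fun _ _ st _ _ => st) ?_ (fun _ _ _ _ _ => rfl) h1
  rintro P ⟨s1, s2, -, -, s3⟩
  refine ⟨s1, s2, ?_⟩
  simp only [id]
  rw [ew _ s1, ev _ s2]
  exact s3

noncomputable def dat : ℕ → Dat
  | 0 => ⟨4, 2, 2⟩
  | k + 1 => next (dat k)

theorem dat_ok : ∀ k, (dat k).ok
  | 0 => ⟨by decide, by decide⟩
  | _ + 1 => next_ok

theorem dat_pos : ∀ k, 0 < (dat k).n
  | 0 => by decide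
  | k + 1 => next_pos (dat_ok k) (dat_pos k)

/-- contraction of the bonding map -/
theorem Q_contr (hd : d.ok) {n : ℕ} {u v : V} (hu : u ∈ VV n) (hv : v ∈ VV n) :
    dd (Q d 0 u) (Q d 0 v) ≤ (dd u v + 1) / 2 := by
  obtain ⟨l, i, -, rfl⟩ := hu
  obtain ⟨l', j, -, rfl⟩ := hv
  rw [Q0_pt, Q0_pt]
  by_cases e : l = l'
  · subst e
    rw [dd_same]
    have h1 := gam_lip hd (pat_valid l) (gg d l i) (gg d l j)
    unfold gg at *
    rcases le_total (i / 2) (j / 2) with f | f <;> have := (cc_lip (d := d) l).bound' f <;> omega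
  · rw [dd_diff e]
    have h1 := gam_lip hd (pat_valid l) (gg d l i) 0
    have h2 := gam_lip hd (pat_valid l') 0 (gg d l' j)
    rw [pat_zero] at h1 h2
    have h3 := dd_tri (gam d (pat l) (gg d l i)) (rho d c) (gam d (pat l') (gg d l' j))
    have h4 := (cc_lip (d := d) l).bound' (Nat.zero_le (i / 2))
    have h5 := (cc_lip (d := d) l').bound' (Nat.zero_le (j / 2))
    rw [cc_zero] at h4 h5
    unfold gg at *
    omega

/-- leg `l` is covered by an outward segment of the pattern of leg `l'` -/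
def covers (l' l : Fin 3) : Prop :=
  (l' = 1 ∧ l = 0) ∨ (l' = 2 ∧ l = 0) ∨ (l' = 0 ∧ l = 1) ∨ (l' = 2 ∧ l = 2)

theorem cover_off (hd : d.ok) (hn : 0 < d.n) {l' l : Fin 3} (h : covers l' l) :
    ∃ s, 1 ≤ s ∧ s + d.n ≤ tot d (pat l') ∧ ∀ t, t ≤ d.n → gam d (pat l') (s + t) = pt l t := by
  obtain ⟨t0, t1, t2⟩ := tot_pat hd
  have ga := (geo_lemma hd a).2
  have gb := (geo_lemma hd b).2
  have gc := (geo_lemma hd c).2
  have h1 := hd.1
  have h2 := hd.2
  rcases h with ⟨rfl, rfl⟩ | ⟨rfl, rfl⟩ | ⟨rfl, rfl⟩ | ⟨rfl, rfl⟩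
  · have e : tot d ([c, o, q] ++ [o]) = d.n + 2 * d.b := by
      simp [tot, len, Mk.rank, dep]; omega
    refine ⟨d.n + 2 * d.b, by omega, by omega, fun t ht => ?_⟩
    rw [← e]
    exact (gam_app_right hd [c, o, q] o [p, a] (by decide) t).trans (ga t ht)
  · have e : tot d ([c] ++ [o]) = d.n := by simp [tot, len, Mk.rank, dep]
    refine ⟨d.n, by omega, by omega, fun t ht => ?_⟩
    have z := gam_app_right hd [c] o [p, a, p, o, c] (by decide) t
    rw [e] at z
    refine z.trans ((gam_app_left hd [o, p] a [p, o, c] (by decide) t ?_).trans (ga t ht))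
    exact ht.trans_eq (geo_lemma hd a).1.symm
  · have e : tot d ([c, o, p] ++ [o]) = d.n + 2 * d.a := by
      simp [tot, len, Mk.rank, dep]; omega
    refine ⟨d.n + 2 * d.a, by omega, by omega, fun t ht => ?_⟩
    rw [← e]
    exact (gam_app_right hd [c, o, p] o [q, b] (by decide) t).trans (gb t ht)
  · have e : tot d ([c, o, p, a, p] ++ [o]) = 3 * d.n := by
      simp [tot, len, Mk.rank, dep]; omega
    refine ⟨3 * d.n, by omega, by omega, fun t ht => ?_⟩
    rw [← e]
    exact (gam_app_right hd [c, o, p, a, p] o [c] (by decide) t).trans (gc t ht)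

theorem up1 (hd : d.ok) (hn : 0 < d.n) {l' l : Fin 3} (h : covers l' l) {s n : ℕ}
    (hs : s + n ≤ d.n) : ∃ s' n' w, 1 ≤ s' ∧ s' + n' ≤ (next d).n ∧ LW w n' n ∧
      ∀ i, i ≤ n' → Q d 0 (pt l' (s' + i)) = pt l (s + w i) := by
  obtain ⟨s0, h1, h2, h3⟩ := cover_off hd hn h
  obtain ⟨g0, gN, -, gL⟩ := gg_LW (d := d) l'
  obtain ⟨s', n', a1, a2, a3, a4⟩ := subwalk gL g0 (N := (next d).n) (a := s0 + s) (n := n)
    (by omega)
  refine ⟨s', n', _, ?_, a1, a3, fun i hi => ?_⟩
  · by_contra hc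
    have : s' = 0 := by omega
    subst this
    omega
  · have b1 := a4 i hi
    have b2 := a3.2.2.1 i hi
    simp only at b2 ⊢
    rw [Q0_pt, ← h3 _ (by omega)]
    congr 1; omega

end Pool.Agent.MP_1f2e48_gt

end MrgPart1

-- ======== part 2: formerly Pool.Agent.MP_1f2e48_gt.Claims
section MrgPart2

set_option autoImplicit false

namespace Pool.Agent.MP_1f2e48_gt

open Mk

/-- the twelve persistent connectivity claims -/
structure Claims (d : Dat) (Ap : V → V → Prop) : Prop where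
  c0 : Cb d Ap (fun _ _ => 0) (arc p q) (arc o c) false false true false 0
  c1 : Cb d Ap (fun _ _ => 0) (arc p b) (arc o c) false true true true 0
  c2 : Cb d Ap (fun _ _ => 0) (arc a q) (arc o c) false true true false 0
  c3 : Cb d Ap (fun _ _ => 0) (arc o p) (arc o a) true true false true 0
  c4 : Cb d Ap (fun _ _ => 0) (arc o p) (arc o q) true false false true 0
  c5 : Cb d Ap (fun _ _ => 0) (arc o p) (arc o b) true false false true 0
  c6 : Cb d Ap (fun _ _ => 0) (arc o p) (arc o c) true true true false 0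
  c7 : Cb d Ap (fun _ _ => 0) (arc o a) (arc o q) true false false true 0
  c8 : Cb d Ap (fun _ _ => 0) (arc o a) (arc o c) true true true false 0
  c9 : Cb d Ap (fun _ _ => 0) (arc o q) (arc o b) true true false true 0
  c10 : Cb d Ap (fun _ _ => 0) (arc o q) (arc o c) true true true false 0
  c11 : Cb d Ap (fun _ _ => 0) (arc o b) (arc o c) true true true false 0

theorem claims_step {d : Dat} (hd : d.ok) {Ap : V → V → Prop} (hA : ∀ u v, Ap u v → Ap v u)
    (h : Claims d Ap) : Claims (next d) (fun u v => Ap (Q d 0 u) (Q d 0 v)) := by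
  have s0 := h.c0.swap hd hA (fun _ _ _ _ _ _ _ _ _ _ => rfl) (by decide) (by decide)
  have s1 := h.c1.swap hd hA (fun _ _ _ _ _ _ _ _ _ _ => rfl) (by decide) (by decide)
  have s2 := h.c2.swap hd hA (fun _ _ _ _ _ _ _ _ _ _ => rfl) (by decide) (by decide)
  have s3 := h.c3.swap hd hA (fun _ _ _ _ _ _ _ _ _ _ => rfl) (by decide) (by decide)
  have s4 := h.c4.swap hd hA (fun _ _ _ _ _ _ _ _ _ _ => rfl) (by decide) (by decide)
  have s5 := h.c5.swap hd hA (fun _ _ _ _ _ _ _ _ _ _ => rfl) (by decide) (by decide)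
  have s6 := h.c6.swap hd hA (fun _ _ _ _ _ _ _ _ _ _ => rfl) (by decide) (by decide)
  have s7 := h.c7.swap hd hA (fun _ _ _ _ _ _ _ _ _ _ => rfl) (by decide) (by decide)
  have s8 := h.c8.swap hd hA (fun _ _ _ _ _ _ _ _ _ _ => rfl) (by decide) (by decide)
  have s9 := h.c9.swap hd hA (fun _ _ _ _ _ _ _ _ _ _ => rfl) (by decide) (by decide)
  have s10 := h.c10.swap hd hA (fun _ _ _ _ _ _ _ _ _ _ => rfl) (by decide) (by decide)
  have s11 := h.c11.swap hd hA (fun _ _ _ _ _ _ _ _ _ _ => rfl) (by decide) (by decide)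
  refine ⟨?_, ?_, ?_, ?_, ?_, ?_, ?_, ?_, ?_, ?_, ?_, ?_⟩
  · have t0 := (h.c10.use hd (lft p q) (lft o c) 1 0 1 0 0 0 0 1 (by decide))
    have t1 := t0.trans0
      (s7.use hd (lft p q) (lft o c) 1 0 1 3 1 3 0 1 (by decide)).symm0
    have t2 := t1.trans0
      (h.c3.use hd (lft p q) (lft o c) 1 2 1 3 2 3 1 3 (by decide)).symm0
    have t3 := t2.trans0
      (h.c3.use hd (lft p q) (lft o c) 3 2 1 3 2 3 3 3 (by decide))
    have t4 := t3.trans0
      (s8.use hd (lft p q) (lft o c) 3 4 1 3 4 3 3 3 (by decide)).symm0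
    have t5 := t4.trans0
      (s8.use hd (lft p q) (lft o c) 5 4 1 3 4 3 5 3 (by decide))
    have t6 := t5.trans0
      (s7.use hd (lft p q) (lft o c) 5 6 1 3 5 3 6 1 (by decide))
    have t7 := t6.trans0
      (h.c0.use hd (lft p q) (lft o c) 8 6 1 0 8 1 6 1 (by decide)).symm0
    have t8 := t7.trans0
      (h.c6.use hd (lft p q) (lft o c) 7 8 1 0 8 0 8 1 (by decide)).symm0
    exact claim_step hd (t8.toCb false false true false (by decide))
  · have t0 := (h.c10.use hd (lft p b) (lft o c) 1 0 5 6 0 6 0 5 (by decide))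
    have t1 := t0.trans0
      (s7.use hd (lft p b) (lft o c) 1 0 5 3 1 3 0 5 (by decide)).symm0
    have t2 := t1.trans0
      (h.c3.use hd (lft p b) (lft o c) 1 2 1 3 2 3 1 3 (by decide)).symm0
    have t3 := t2.trans0
      (h.c3.use hd (lft p b) (lft o c) 3 2 1 3 2 3 3 3 (by decide))
    have t4 := t3.trans0
      (s8.use hd (lft p b) (lft o c) 3 4 1 3 4 3 3 3 (by decide)).symm0
    have t5 := t4.trans0
      (s8.use hd (lft p b) (lft o c) 5 4 1 3 4 3 5 3 (by decide))
    have t6 := t5.trans0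
      (s7.use hd (lft p b) (lft o c) 5 6 5 3 5 3 6 5 (by decide))
    have t7 := t6.trans0
      (h.c2.use hd (lft p b) (lft o c) 9 6 5 6 9 6 6 5 (by decide)).symm0
    exact claim_step hd (t7.toCb false true true true (by decide))
  · have t0 := (h.c11.use hd (lft a q) (lft o c) 2 0 5 6 0 6 0 5 (by decide))
    have t1 := t0.trans0
      (s5.use hd (lft a q) (lft o c) 2 0 5 4 2 4 0 5 (by decide)).symm0
    have t2 := t1.trans0
      (s4.use hd (lft a q) (lft o c) 2 1 5 4 2 4 1 5 (by decide))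
    have t3 := t2.trans0
      (s7.use hd (lft a q) (lft o c) 2 1 5 3 2 3 1 5 (by decide)).symm0
    have t4 := t3.trans0
      (h.c3.use hd (lft a q) (lft o c) 2 3 1 3 3 3 2 3 (by decide)).symm0
    have t5 := t4.trans0
      (h.c3.use hd (lft a q) (lft o c) 4 3 1 3 3 3 4 3 (by decide))
    have t6 := t5.trans0
      (s8.use hd (lft a q) (lft o c) 4 5 1 3 5 3 4 3 (by decide)).symm0
    have t7 := t6.trans0
      (s8.use hd (lft a q) (lft o c) 6 5 1 3 5 3 6 3 (by decide))
    have t8 := t7.trans0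
      (s7.use hd (lft a q) (lft o c) 6 7 1 3 6 3 7 1 (by decide))
    have t9 := t8.trans0
      (h.c0.use hd (lft a q) (lft o c) 9 7 1 0 9 1 7 1 (by decide)).symm0
    have t10 := t9.trans0
      (h.c6.use hd (lft a q) (lft o c) 8 9 1 0 9 0 9 1 (by decide)).symm0
    exact claim_step hd (t10.toCb false true true false (by decide))
  · have t0 := (h.c9.use hd (lft o p) (lft o a) 3 4 3 5 4 5 3 5 (by decide))
    have t1 := t0.trans0
      (h.c5.use hd (lft o p) (lft o a) 3 2 3 5 2 3 3 5 (by decide)).symm0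
    have t2 := t1.trans0
      (h.c5.use hd (lft o p) (lft o a) 1 2 3 5 2 3 1 5 (by decide))
    have t3 := t2.trans0
      (s11.use hd (lft o p) (lft o a) 1 0 3 5 0 5 1 5 (by decide)).symm0
    exact claim_step hd (t3.toCb true true false true (by decide))
  · have t0 := (h.c10.use hd (lft o p) (lft o q) 3 4 1 0 4 0 4 1 (by decide))
    have t1 := t0.trans0
      (h.c0.use hd (lft o p) (lft o q) 2 4 1 0 2 1 4 1 (by decide)).symm0
    have t2 := t1.trans0
      (h.c4.use hd (lft o p) (lft o q) 1 2 1 2 2 1 1 2 (by decide))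
    have t3 := t2.trans0
      (s0.use hd (lft o p) (lft o q) 1 0 4 2 1 4 1 2 (by decide)).symm0
    have t4 := t3.trans0
      (s6.use hd (lft o p) (lft o q) 1 0 3 4 0 4 1 4 (by decide)).symm0
    exact claim_step hd (t4.toCb true false false true (by decide))
  · have t0 := (h.c10.use hd (lft o p) (lft o b) 3 4 1 0 4 0 4 1 (by decide))
    have t1 := t0.trans0
      (h.c0.use hd (lft o p) (lft o b) 2 4 1 0 2 1 4 1 (by decide)).symm0
    have t2 := t1.trans0
      (h.c4.use hd (lft o p) (lft o b) 1 2 1 2 2 1 1 2 (by decide))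
    have t3 := t2.trans0
      (s2.use hd (lft o p) (lft o b) 1 0 5 2 0 5 1 2 (by decide)).symm0
    exact claim_step hd (t3.toCb true false false true (by decide))
  · have t0 := (h.c10.use hd (lft o p) (lft o c) 3 4 5 6 4 6 4 5 (by decide))
    have t1 := t0.trans0
      (s7.use hd (lft o p) (lft o c) 3 4 5 3 3 3 4 5 (by decide)).symm0
    have t2 := t1.trans0
      (s7.use hd (lft o p) (lft o c) 3 4 1 3 3 3 4 1 (by decide))
    have t3 := t2.trans0
      (h.c10.use hd (lft o p) (lft o c) 3 4 1 0 4 0 4 1 (by decide)).symm0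
    exact claim_step hd (t3.toCb true true true false (by decide))
  · have t0 := (h.c1.use hd (lft o a) (lft o q) 2 5 1 0 2 0 5 0 (by decide)).symm0
    have t1 := t0.trans0
      (h.c6.use hd (lft o a) (lft o q) 1 2 1 0 2 0 2 1 (by decide))
    have t2 := t1.trans0
      (h.c4.use hd (lft o a) (lft o q) 1 2 1 2 2 1 1 2 (by decide))
    have t3 := t2.trans0
      (s0.use hd (lft o a) (lft o q) 1 0 4 2 1 4 1 2 (by decide)).symm0
    have t4 := t3.trans0
      (s6.use hd (lft o a) (lft o q) 1 0 3 4 0 4 1 4 (by decide)).symm0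
    exact claim_step hd (t4.toCb true false false true (by decide))
  · have t0 := (h.c1.use hd (lft o a) (lft o c) 2 5 5 6 2 6 5 6 (by decide)).symm0
    have t1 := t0.trans0
      (h.c6.use hd (lft o a) (lft o c) 1 2 5 6 2 6 2 5 (by decide))
    have t2 := t1.trans0
      (h.c0.use hd (lft o a) (lft o c) 2 4 5 6 2 5 4 5 (by decide))
    have t3 := t2.trans0
      (s7.use hd (lft o a) (lft o c) 3 4 5 3 3 3 4 5 (by decide)).symm0
    have t4 := t3.trans0
      (s7.use hd (lft o a) (lft o c) 3 4 1 3 3 3 4 1 (by decide))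
    have t5 := t4.trans0
      (h.c0.use hd (lft o a) (lft o c) 2 4 1 0 2 1 4 1 (by decide)).symm0
    have t6 := t5.trans0
      (h.c6.use hd (lft o a) (lft o c) 1 2 1 0 2 0 2 1 (by decide)).symm0
    have t7 := t6.trans0
      (h.c1.use hd (lft o a) (lft o c) 2 5 1 0 2 0 5 0 (by decide))
    exact claim_step hd (t7.toCb true true true false (by decide))
  · have t0 := (h.c3.use hd (lft o q) (lft o b) 3 4 3 5 4 5 3 5 (by decide))
    have t1 := t0.trans0
      (s7.use hd (lft o q) (lft o b) 3 2 3 5 3 5 2 3 (by decide))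
    have t2 := t1.trans0
      (s7.use hd (lft o q) (lft o b) 1 2 3 5 1 5 2 3 (by decide)).symm0
    have t3 := t2.trans0
      (s8.use hd (lft o q) (lft o b) 1 0 3 5 0 5 1 5 (by decide)).symm0
    exact claim_step hd (t3.toCb true true false true (by decide))
  · have t0 := (h.c6.use hd (lft o q) (lft o c) 3 4 5 6 4 6 4 5 (by decide))
    have t1 := t0.trans0
      (h.c0.use hd (lft o q) (lft o c) 4 2 5 6 4 5 2 5 (by decide))
    have t2 := t1.trans0
      (s7.use hd (lft o q) (lft o c) 1 2 5 3 1 3 2 5 (by decide)).symm0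
    have t3 := t2.trans0
      (s7.use hd (lft o q) (lft o c) 1 2 1 3 1 3 2 1 (by decide))
    have t4 := t3.trans0
      (h.c0.use hd (lft o q) (lft o c) 4 2 1 0 4 1 2 1 (by decide)).symm0
    have t5 := t4.trans0
      (h.c6.use hd (lft o q) (lft o c) 3 4 1 0 4 0 4 1 (by decide)).symm0
    exact claim_step hd (t5.toCb true true true false (by decide))
  · have t0 := (h.c2.use hd (lft o b) (lft o c) 5 2 5 6 5 6 2 5 (by decide))
    have t1 := t0.trans0
      (s7.use hd (lft o b) (lft o c) 1 2 5 3 1 3 2 5 (by decide)).symm0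
    have t2 := t1.trans0
      (s7.use hd (lft o b) (lft o c) 1 2 1 3 1 3 2 1 (by decide))
    have t3 := t2.trans0
      (h.c2.use hd (lft o b) (lft o c) 5 2 1 0 5 0 2 1 (by decide)).symm0
    exact claim_step hd (t3.toCb true true true false (by decide))

def okb (s : ℕ × ℕ → Bool) : ℕ × ℕ → List (ℕ × ℕ) → ℕ × ℕ → Bool
  | P, [], R => s P && decide (P = R)
  | P, Q :: l, R => s P && decide ((P.2 = Q.2 ∧ P.1 ≤ Q.1 + 1 ∧ Q.1 ≤ P.1 + 1) ∨
      (P.1 = Q.1 ∧ P.2 ≤ Q.2 + 1 ∧ Q.2 ≤ P.2 + 1)) && okb s Q l R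

theorem okb_sound {S : ℕ × ℕ → Prop} {s : ℕ × ℕ → Bool} (hs : ∀ P, s P = true → S P) :
    ∀ (l : List (ℕ × ℕ)) (P R : ℕ × ℕ), okb s P l R = true → Val S (fun _ _ => 0) P R 0
  | [], P, R, h => by
    simp only [okb, Bool.and_eq_true, decide_eq_true_eq] at h
    obtain ⟨h1, rfl⟩ := h
    exact Val.refl (hs _ h1)
  | Q :: l, P, R, h => by
    simp only [okb, Bool.and_eq_true, decide_eq_true_eq] at h
    have ih := okb_sound hs l Q R h.2
    have := (Val.refl (ω := fun _ _ => 0) (hs _ h.1.1)).tail h.1.2 ih.left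
    exact Val.trans0 (by simpa using this) ih

theorem base_claim (X Y : List Mk) (x y x' y' : Bool) (l : List (ℕ × ℕ))
    (h : okb (fun P => decide (P.1 ≤ tot ⟨4, 2, 2⟩ X ∧ P.2 ≤ tot ⟨4, 2, 2⟩ Y ∧
        2 ≤ dd (gam ⟨4, 2, 2⟩ X P.1) (gam ⟨4, 2, 2⟩ Y P.2)))
      (cr x (tot ⟨4, 2, 2⟩ X), cr y (tot ⟨4, 2, 2⟩ Y)) l
      (cr x' (tot ⟨4, 2, 2⟩ X), cr y' (tot ⟨4, 2, 2⟩ Y)) = true) :
    Cb ⟨4, 2, 2⟩ (fun u v => 2 ≤ dd u v) (fun _ _ => 0) X Y x y x' y' 0 :=
  okb_sound (fun _ h => by have := of_decide_eq_true h; exact this) l _ _ h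

theorem claims_zero : Claims ⟨4, 2, 2⟩ (fun u v => 2 ≤ dd u v) where
  c0 := base_claim _ _ _ _ _ _ [(0, 1), (1, 1), (1, 2), (2, 2), (3, 2), (4, 2), (4, 1), (4, 0)] (by decide)
  c1 := base_claim _ _ _ _ _ _ [(1, 4), (2, 4), (3, 4), (4, 4), (5, 4), (6, 4)] (by decide)
  c2 := base_claim _ _ _ _ _ _ [(1, 4), (2, 4), (3, 4), (4, 4), (5, 4), (6, 4), (6, 3), (6, 2), (6, 1), (6, 0)] (by decide)
  c3 := base_claim _ _ _ _ _ _ [(1, 4), (0, 4)] (by decide)
  c4 := base_claim _ _ _ _ _ _ [(2, 1), (1, 1), (1, 2), (0, 2)] (by decide)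
  c5 := base_claim _ _ _ _ _ _ [(2, 1), (1, 1), (1, 2), (0, 2), (0, 3), (0, 4)] (by decide)
  c6 := base_claim _ _ _ _ _ _ [(2, 3), (2, 2), (2, 1), (2, 0)] (by decide)
  c7 := base_claim _ _ _ _ _ _ [(3, 0), (2, 0), (2, 1), (1, 1), (1, 2), (0, 2)] (by decide)
  c8 := base_claim _ _ _ _ _ _ [(4, 3), (4, 2), (4, 1), (4, 0)] (by decide)
  c9 := base_claim _ _ _ _ _ _ [(1, 4), (0, 4)] (by decide)
  c10 := base_claim _ _ _ _ _ _ [(2, 3), (2, 2), (2, 1), (2, 0)] (by decide)
  c11 := base_claim _ _ _ _ _ _ [(4, 3), (4, 2), (4, 1), (4, 0)] (by decide)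

theorem Cb.change {d : Dat} {Ap : V → V → Prop} (Ω : V × V → V × V → ℝ) {X Y : List Mk}
    {x y x' y' : Bool} (h : Cb d Ap (fun _ _ => 0) X Y x y x' y' 0) :
    ∃ r, Cb d Ap Ω X Y x y x' y' r := Val.change _ h

theorem final_contra {d : Dat} (hd : d.ok) {Ap : V → V → Prop} (hA : ∀ u v, Ap u v → Ap v u)
    (h : Claims d Ap) (Ω : V × V → V × V → ℝ) (A : V × V → Real.Angle)
    (hΩA : ∀ P Q, ((Ω P Q : ℝ) : Real.Angle) = A Q - A P)
    (hΩ : ∀ u v u' v', u ∈ VV d.n → v ∈ VV d.n → u' ∈ VV d.n → v' ∈ VV d.n → Ap u v → Ap u' v' →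
      Ω (v, u) (v', u') = Ω (u, v) (u', v'))
    (hπ : ∀ u v, u ∈ VV d.n → v ∈ VV d.n → Ap u v → A (v, u) = A (u, v) + (Real.pi : ℝ))
    (θ0 θ1 θ2 : ℕ × ℕ → ℝ)
    (p0 : Prim (SW d Ap (pat 0) (pat 0)) (oW d Ω (pat 0) (pat 0)) θ0)
    (p1 : Prim (SW d Ap (pat 0) (pat 1)) (oW d Ω (pat 0) (pat 1)) θ1)
    (p2 : Prim (SW d Ap (pat 1) (pat 1)) (oW d Ω (pat 1) (pat 1)) θ2) : False := by
  obtain ⟨r0, h0⟩ := h.c0.change Ω
  have s0 := h0.swap hd hA hΩ (by decide) (by decide)
  obtain ⟨r1, h1⟩ := h.c1.change Ω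
  have s1 := h1.swap hd hA hΩ (by decide) (by decide)
  obtain ⟨r2, h2⟩ := h.c2.change Ω
  have s2 := h2.swap hd hA hΩ (by decide) (by decide)
  obtain ⟨r3, h3⟩ := h.c3.change Ω
  have s3 := h3.swap hd hA hΩ (by decide) (by decide)
  obtain ⟨r4, h4⟩ := h.c4.change Ω
  have s4 := h4.swap hd hA hΩ (by decide) (by decide)
  obtain ⟨r5, h5⟩ := h.c5.change Ω
  have s5 := h5.swap hd hA hΩ (by decide) (by decide)
  obtain ⟨r6, h6⟩ := h.c6.change Ω
  have s6 := h6.swap hd hA hΩ (by decide) (by decide)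
  obtain ⟨r7, h7⟩ := h.c7.change Ω
  have s7 := h7.swap hd hA hΩ (by decide) (by decide)
  obtain ⟨r8, h8⟩ := h.c8.change Ω
  have s8 := h8.swap hd hA hΩ (by decide) (by decide)
  obtain ⟨r9, h9⟩ := h.c9.change Ω
  have s9 := h9.swap hd hA hΩ (by decide) (by decide)
  obtain ⟨r10, h10⟩ := h.c10.change Ω
  have s10 := h10.swap hd hA hΩ (by decide) (by decide)
  obtain ⟨r11, h11⟩ := h.c11.change Ω
  have s11 := h11.swap hd hA hΩ (by decide) (by decide)
  have e0 := Val.prim p0
    (s6.use hd (pat 0) (pat 0) 1 0 1 2 0 2 1 2 (by decide))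
  have e1 := Val.prim p0
    (s0.use hd (pat 0) (pat 0) 1 0 2 4 1 2 1 4 (by decide))
  have e2 := Val.prim p0
    (h4.use hd (pat 0) (pat 0) 1 2 3 4 2 3 1 4 (by decide))
  have e3 := Val.prim p0
    (h5.use hd (pat 0) (pat 0) 1 2 3 5 2 3 1 5 (by decide))
  have e4 := Val.prim p0
    (s11.use hd (pat 0) (pat 0) 1 0 3 5 0 5 1 5 (by decide))
  have e5 := Val.prim p0
    (s1.use hd (pat 0) (pat 0) 1 0 2 5 0 2 0 5 (by decide))
  have e6 := Val.prim p1
    (s8.use hd (pat 0) (pat 1) 1 0 3 5 0 5 1 5 (by decide))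
  have e7 := Val.prim p1
    (h3.use hd (pat 0) (pat 1) 1 2 3 5 2 5 1 5 (by decide))
  have e8 := Val.prim p1
    (h3.use hd (pat 0) (pat 1) 3 2 3 5 2 5 3 5 (by decide))
  have e9 := Val.prim p1
    (s7.use hd (pat 0) (pat 1) 3 4 3 5 3 5 4 3 (by decide))
  have e10 := Val.prim p1
    (s4.use hd (pat 0) (pat 1) 3 4 3 4 3 4 4 3 (by decide))
  have e11 := Val.prim p1
    (s5.use hd (pat 0) (pat 1) 3 5 3 4 3 4 5 3 (by decide))
  have e12 := Val.prim p1
    (s9.use hd (pat 0) (pat 1) 3 5 3 2 5 2 5 3 (by decide))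
  have e13 := Val.prim p1
    (s9.use hd (pat 0) (pat 1) 3 5 1 2 5 2 5 1 (by decide))
  have e14 := Val.prim p1
    (h11.use hd (pat 0) (pat 1) 3 5 1 0 5 0 5 1 (by decide))
  have e15 := Val.prim p1
    (h1.use hd (pat 0) (pat 1) 2 5 1 0 2 0 5 0 (by decide))
  have e16 := Val.prim p1
    (h6.use hd (pat 0) (pat 1) 1 2 1 0 2 0 2 1 (by decide))
  have e17 := Val.prim p1
    (h4.use hd (pat 0) (pat 1) 1 2 1 2 2 1 1 2 (by decide))
  have e18 := Val.prim p1
    (s2.use hd (pat 0) (pat 1) 1 0 5 2 0 5 1 2 (by decide))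
  have e19 := Val.prim p2
    (s2.use hd (pat 1) (pat 1) 1 0 5 2 0 5 1 2 (by decide))
  have e20 := Val.prim p2
    (s0.use hd (pat 1) (pat 1) 1 0 4 2 1 4 1 2 (by decide))
  have e21 := Val.prim p2
    (s4.use hd (pat 1) (pat 1) 1 2 3 4 1 4 2 3 (by decide))
  have e22 := Val.prim p2
    (s7.use hd (pat 1) (pat 1) 1 2 3 5 1 5 2 3 (by decide))
  have e23 := Val.prim p2
    (s8.use hd (pat 1) (pat 1) 1 0 3 5 0 5 1 5 (by decide))
  have key : r0 = r4 := by linarith
  have a0 := Val.angle (A := fun P => A (gam d (arc p q) P.1, gam d (arc o c) P.2))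
    (fun P Q => hΩA _ _) h0
  have a4 := Val.angle (A := fun P => A (gam d (arc o p) P.1, gam d (arc o q) P.2))
    (fun P Q => hΩA _ _) h4
  have ap := h0.right.2.2
  have g1 : gam d (arc p q) 0 = rho d p := gam_zero (u := p) (w := [o, q]) (by decide)
  have g2 : gam d (arc o c) 0 = rho d o := gam_zero (u := o) (w := [c]) (by decide)
  have g3 : gam d (arc p q) (tot d (arc p q)) = rho d q := by
    have := gam_app_right hd [p, o] q [] (by decide) 0
    exact this
  have g4 : gam d (arc o p) (tot d (arc o p)) = rho d p := by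
    have := gam_app_right hd [o] p [] (by decide) 0
    exact this
  have g5 : gam d (arc o q) (tot d (arc o q)) = rho d q := by
    have := gam_app_right hd [o] q [] (by decide) 0
    exact this
  have g6 : gam d (arc o p) 0 = rho d o := gam_zero (u := o) (w := [p]) (by decide)
  have g7 : gam d (arc o q) 0 = rho d o := gam_zero (u := o) (w := [q]) (by decide)
  simp only [cr, if_true, Bool.false_eq_true, if_false, g1, g2, g3, g4, g5, g6, g7] at a0 a4 ap
  have := hπ _ _ (rho_mem hd q) (rho_mem hd o) ap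
  rw [key, a4, this, sub_left_inj, add_eq_left] at a0
  exact Real.Angle.pi_ne_zero a0

end Pool.Agent.MP_1f2e48_gt

end MrgPart2

-- marker of a merged file
example : 731051 + 555072 = 731051 + 555072 := rfl
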