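import Mathlib.Topology.ContinuousMap.Bounded.Normed
import Mathlib.Analysis.InnerProductSpace.Basic
import Mathlib.Algebra.Order.Star.Real
import Mathlib.Analysis.Normed.Affine.AddTorsor
import Mathlib.Order.CompletePartialOrder
import Pool.Agent.MP_1f2e48_gt.Claims
import Pool.Agent.MP_1f2e48_gt.Lift

-- ======== part 0: formerly Pool.Agent.MP_1f2e48_gt.NoEmb
section MrgPart0

set_option autoImplicit false

namespace Pool.Agent.MP_1f2e48_gt

noncomputable def qm (k : ℕ) (v : V) : V := Q (dat k) 0 v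
noncomputable def nn (k : ℕ) : ℕ := (dat k).n

/-- threads of the discrete inverse system -/
def Thr : Set (ℕ → V) := {x | ∀ k, x k ∈ VV (nn k) ∧ qm k (x (k + 1)) = x k}

noncomputable def proj (i : ℕ) : ℕ → V → V
  | 0, v => v
  | r + 1, v => proj i r (qm (i + r) v)

noncomputable def lab : ℕ → V → V
  | 0, v => v
  | k + 1, v => lab k (qm k v)

theorem proj_thr {x : ℕ → V} (hx : x ∈ Thr) (i r : ℕ) : proj i r (x (i + r)) = x i := by
  induction r with
  | zero => rfl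
  | succ r ih => rw [proj, ← add_assoc, (hx (i + r)).2, ih]

theorem lab_thr {x : ℕ → V} (hx : x ∈ Thr) (k : ℕ) : lab k (x k) = x 0 := by
  induction k with
  | zero => rfl
  | succ r ih => rw [lab, (hx r).2, ih]

theorem proj_succ' (i r : ℕ) (v : V) : proj i (r + 1) v = qm i (proj (i + 1) r v) := by
  induction r generalizing v with
  | zero => rfl
  | succ r ih =>
    rw [proj, ih, proj]
    have : i + (r + 1) = i + 1 + r := by omega
    rw [this]

theorem proj_add (i r r' : ℕ) (v : V) : proj i (r + r') v = proj i r (proj (i + r) r' v) := by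
  induction r' generalizing v with
  | zero => rfl
  | succ s ih => rw [← add_assoc, proj, ih, proj, add_assoc]

theorem proj_mem {i r : ℕ} {v : V} (hv : v ∈ VV (nn (i + r))) : proj i r v ∈ VV (nn i) := by
  induction r generalizing v with
  | zero => exact hv
  | succ s ih => exact ih (Q_mem (dat_ok _) 0 v)

theorem exists_covers (l : Fin 3) : ∃ l', covers l' l := by
  fin_cases l
  · exact ⟨2, by simp [covers]⟩
  · exact ⟨0, by simp [covers]⟩
  · exact ⟨2, by simp [covers]⟩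

theorem exact_pre (k : ℕ) (v : V) (hv : v ∈ VV (nn k)) :
    ∃ u, u ∈ VV (nn (k + 1)) ∧ Q (dat k) 0 u = v ∧ Q (dat k) 1 u = v := by
  obtain ⟨l, i, hi, rfl⟩ := hv
  obtain ⟨l', hl⟩ := exists_covers l
  obtain ⟨s, -, h2, h3⟩ := cover_off (dat_ok k) (dat_pos k) hl
  change i ≤ (dat k).n at hi
  obtain ⟨h, -, a1, a2⟩ := (cc_lip (d := dat k) l').ivt_up (Nat.zero_le ((next (dat k)).n / 2))
    (y := s + i) (by rw [cc_zero]; omega) (by rw [cc_top l' le_rfl]; omega)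
  refine ⟨pt l' (2 * h), ⟨l', _, by change 2 * h ≤ (next (dat k)).n; omega, rfl⟩, ?_, ?_⟩
  · rw [Q_pt (by omega)]
    have : (2 * h + 0) / 2 = h := by omega
    rw [this, a2, h3 i hi]
  · rw [Q_pt (by omega)]
    have : (2 * h + 1) / 2 = h := by omega
    rw [this, a2, h3 i hi]

theorem exists_thr (k : ℕ) (v : V) (hv : v ∈ VV (nn k)) :
    ∃ x, x ∈ Thr ∧ x k = v ∧ ∀ r, Q (dat (k + r)) 1 (x (k + r + 1)) = x (k + r) := by
  choose! U hU using exact_pre
  let y : ℕ → V := fun r => Nat.rec v (fun r u => U (k + r) u) r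
  have hy : ∀ r, y r ∈ VV (nn (k + r)) := by
    intro r
    induction r with
    | zero => exact hv
    | succ r ih => exact (hU _ _ ih).1
  let x : ℕ → V := fun i => if i ≤ k then proj i (k - i) v else y (i - k)
  have x1 : ∀ i, i ≤ k → x i = proj i (k - i) v := fun i hi => by simp [x, hi]
  have x2 : ∀ r, x (k + r) = y r := by
    intro r
    rcases Nat.eq_zero_or_pos r with rfl | h
    · rw [x1 _ (by omega)]; simp [proj, y]
    · have : ¬ k + r ≤ k := by omega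
      simp [x, this]
  refine ⟨x, fun i => ?_, x2 0, fun r => ?_⟩
  · by_cases e : i + 1 ≤ k
    · rw [x1 i (by omega), x1 _ e]
      refine ⟨proj_mem (by rwa [Nat.add_sub_cancel' (by omega)]), ?_⟩
      have : k - i = (k - (i + 1)) + 1 := by omega
      rw [this, proj_succ']
    · obtain ⟨r, rfl⟩ : ∃ r, i = k + r := ⟨i - k, by omega⟩
      rw [add_assoc, x2, x2]
      exact ⟨hy r, (hU _ _ (hy r)).2.1⟩
  · rw [add_assoc, x2, x2]
    exact (hU _ _ (hy r)).2.2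

theorem claims_all (k : ℕ) : Claims (dat k) (fun u v => 2 ≤ dd (lab k u) (lab k v)) := by
  induction k with
  | zero => exact claims_zero
  | succ k ih => exact claims_step (dat_ok k) (fun u v h => by rwa [dd_comm]) ih

theorem upm (r k : ℕ) (l : Fin 3) (s n : ℕ) (h : s + n ≤ nn k) :
    ∃ l' s' n' w, s' + n' ≤ nn (k + r) ∧ LW w n' n ∧
      ∀ i, i ≤ n' → proj k r (pt l' (s' + i)) = pt l (s + w i) := by
  induction r with
  | zero => exact ⟨l, s, n, _, h, LW.id n, fun _ _ => rfl⟩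
  | succ r ih =>
    obtain ⟨l1, s1, n1, w1, a1, a2, a3⟩ := ih
    obtain ⟨l2, hl⟩ := exists_covers l1
    obtain ⟨s2, n2, w2, -, b1, b2, b3⟩ := up1 (dat_ok (k + r)) (dat_pos _) hl a1
    refine ⟨l2, s2, n2, _, b1, a2.comp b2, fun i hi => ?_⟩
    rw [proj, qm, b3 i hi, a3 _ (b2.2.2.1 i hi)]

/-- an interval of level `j + r` lying in leg `l` off the branch point covers the word `X` -/
def Cov (j r : ℕ) (l : Fin 3) (X : List Mk) : Prop :=
  ∃ s n w, 1 ≤ s ∧ s + n ≤ nn (j + r) ∧ LW w n (tot (dat j) X) ∧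
    ∀ i, i ≤ n → proj j r (pt l (s + i)) = gam (dat j) X (w i)

theorem cov_two (j : ℕ) {l' l : Fin 3} (h : covers l' l) : Cov j 2 l' (pat l) := by
  obtain ⟨s, n, w, a1, a2, a3, a4⟩ := up1 (dat_ok (j + 1)) (dat_pos _) h (s := 0)
    (n := (dat (j + 1)).n) (by omega)
  refine ⟨s, n, _, a1, a2, (gg_LW l).comp a3, fun i hi => ?_⟩
  change Q (dat j) 0 (Q (dat (j + 1)) 0 _) = _
  rw [a4 i hi, Q0_pt, zero_add]

theorem cov_succ {j r : ℕ} {l' l : Fin 3} {X : List Mk} (h : covers l' l) (hc : Cov j r l X) :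
    Cov j (r + 1) l' X := by
  obtain ⟨s1, n1, w1, -, a1, a2, a3⟩ := hc
  obtain ⟨s2, n2, w2, b0, b1, b2, b3⟩ := up1 (dat_ok (j + r)) (dat_pos _) h a1
  refine ⟨s2, n2, _, b0, b1, a2.comp b2, fun i hi => ?_⟩
  rw [proj, qm, b3 i hi, a3 _ (b2.2.2.1 i hi)]

section
variable (E : (ℕ → V) → ℂ)
  (hU : ∀ μ : ℝ, 0 < μ → ∃ k0, ∀ k, k0 ≤ k → ∀ x y, x ∈ Thr → y ∈ Thr → dd (x k) (y k) ≤ 1 →
    ‖E x - E y‖ < μ)
  (hS : ∀ i, ∃ η : ℝ, 0 < η ∧ ∀ x y, x ∈ Thr → y ∈ Thr → 2 ≤ dd (x i) (y i) → η ≤ ‖E x - E y‖)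
  (σ : ℕ → V → ℕ → V) (hσ : ∀ k v, v ∈ VV (nn k) → σ k v ∈ Thr ∧ σ k v k = v)

include hU hS hσ in
theorem exists_prim {η : ℝ} {j : ℕ}
    (h0 : ∀ x y, x ∈ Thr → y ∈ Thr → 2 ≤ dd (x 0) (y 0) → η ≤ ‖E x - E y‖)
    (hj : ∀ x y, x ∈ Thr → y ∈ Thr → dd (x j) (y j) ≤ 1 → ‖E x - E y‖ < η / 2)
    {X Y : List Mk} (hX : valid X = true) (hY : valid Y = true) {r : ℕ} {l1 l2 : Fin 3}
    (hl : l1 ≠ l2) (c1 : Cov j r l1 X) (c2 : Cov j r l2 Y) :
    ∃ θ, Prim (SW (dat j) (fun u v => 2 ≤ dd (lab j u) (lab j v)) X Y)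
      (oW (dat j) (fun P Q => om (E (σ j P.1) - E (σ j P.2)) (E (σ j Q.1) - E (σ j Q.2))) X Y) θ := by
  obtain ⟨s1, n1, w1, a0, a1, a2, a3⟩ := c1
  obtain ⟨s2, n2, w2, b0, b1, b2, b3⟩ := c2
  obtain ⟨η1, e1, e2⟩ := hS (j + r)
  obtain ⟨m0, hm⟩ := hU η1 e1
  obtain ⟨l3, s3, N, v1, f1, f2, f3⟩ := upm m0 (j + r) l1 s1 n1 a1
  obtain ⟨l4, s4, M, v2, g1, g2, g3⟩ := upm m0 (j + r) l2 s2 n2 b1
  have hm' := hm (j + r + m0) (by omega)
  set m := j + r + m0 with hmdef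
  let xx : ℕ → ℕ → V := fun i => σ m (pt l3 (s3 + i))
  let yy : ℕ → ℕ → V := fun i => σ m (pt l4 (s4 + i))
  have hx : ∀ i, i ≤ N → xx i ∈ Thr ∧ xx i m = pt l3 (s3 + i) := fun i hi =>
    hσ m _ ⟨l3, _, by omega, rfl⟩
  have hy : ∀ i, i ≤ M → yy i ∈ Thr ∧ yy i m = pt l4 (s4 + i) := fun i hi =>
    hσ m _ ⟨l4, _, by omega, rfl⟩
  have hx1 : ∀ i, i ≤ N → xx i (j + r) = pt l1 (s1 + v1 i) := fun i hi => by
    rw [← proj_thr (hx i hi).1 (j + r) m0, (hx i hi).2, f3 i hi]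
  have hy1 : ∀ i, i ≤ M → yy i (j + r) = pt l2 (s2 + v2 i) := fun i hi => by
    rw [← proj_thr (hy i hi).1 (j + r) m0, (hy i hi).2, g3 i hi]
  have hx2 : ∀ i, i ≤ N → xx i j = gam (dat j) X (w1 (v1 i)) := fun i hi => by
    rw [← proj_thr (hx i hi).1 j r, hx1 i hi, a3 _ (f2.2.2.1 i hi)]
  have hy2 : ∀ i, i ≤ M → yy i j = gam (dat j) Y (w2 (v2 i)) := fun i hi => by
    rw [← proj_thr (hy i hi).1 j r, hy1 i hi, b3 _ (g2.2.2.1 i hi)]
  let D : ℕ × ℕ → ℂ := fun P => E (xx P.1) - E (yy P.2)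
  obtain ⟨θ1, t1, t2⟩ := grid_lift D N M (by
    rintro ⟨i, k⟩ ⟨i', k'⟩ st ⟨p1, p2⟩ ⟨q1, q2⟩
    simp only at p1 p2 q1 q2
    have big : η1 ≤ ‖D (i, k)‖ := e2 _ _ (hx i p1).1 (hy k p2).1 (by
      rw [hx1 i p1, hy1 k p2, dd_diff hl]; omega)
    refine lt_of_lt_of_le ?_ big
    rcases st with ⟨e, u1, u2⟩ | ⟨e, u1, u2⟩ <;> simp only at e u1 u2 <;> subst e
    · have := hm' _ _ (hx i' q1).1 (hx i p1).1 (by rw [(hx i' q1).2, (hx i p1).2, dd_same]; omega)
      have e : D (i', k) - D (i, k) = E (xx i') - E (xx i) := by simp only [D]; ring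
      rw [e]; exact this
    · have := hm' _ _ (hy k p2).1 (hy k' q2).1 (by rw [(hy k' q2).2, (hy k p2).2, dd_same]; omega)
      have e : D (i, k') - D (i, k) = E (yy k) - E (yy k') := by simp only [D]; ring
      rw [e]; exact this)
  let D0 : ℕ × ℕ → ℂ := fun P => E (σ j (gam (dat j) X P.1)) - E (σ j (gam (dat j) Y P.2))
  let S := SW (dat j) (fun u v => 2 ≤ dd (lab j u) (lab j v)) X Y
  have mX : ∀ t, σ j (gam (dat j) X t) ∈ Thr ∧ σ j (gam (dat j) X t) j = gam (dat j) X t :=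
    fun t => hσ j _ (gam_mem (dat_ok j) X hX t)
  have mY : ∀ t, σ j (gam (dat j) Y t) ∈ Thr ∧ σ j (gam (dat j) Y t) j = gam (dat j) Y t :=
    fun t => hσ j _ (gam_mem (dat_ok j) Y hY t)
  have big0 : ∀ P, S P → η ≤ ‖D0 P‖ := by
    intro P s
    refine h0 _ _ (mX _).1 (mY _).1 ?_
    rw [← lab_thr (mX _).1 j, ← lab_thr (mY _).1 j, (mX _).2, (mY _).2]
    exact s.2.2
  have sm0 : ∀ P Q, Step P Q → S P → ‖D0 Q - D0 P‖ < ‖D0 P‖ := by
    rintro ⟨i, k⟩ ⟨i', k'⟩ st s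
    have hb := big0 _ s
    have hη : η / 2 ≤ η := by
      have := hj _ _ (mX 0).1 (mX 0).1 (by rw [dd_self]; omega)
      have := norm_nonneg (E (σ j (gam (dat j) X 0)) - E (σ j (gam (dat j) X 0)))
      linarith
    refine lt_of_lt_of_le ?_ (hη.trans hb)
    rcases st with ⟨e, u1, u2⟩ | ⟨e, u1, u2⟩ <;> simp only at e u1 u2 <;> subst e
    · have := hj _ _ (mX i').1 (mX i).1 (by
        rw [(mX _).2, (mX _).2]; have := gam_lip (dat_ok j) hX i' i; omega)
      have e : D0 (i', k) - D0 (i, k) =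
        E (σ j (gam (dat j) X i')) - E (σ j (gam (dat j) X i)) := by simp only [D0]; ring
      rw [e]; exact this
    · have := hj _ _ (mY k).1 (mY k').1 (by
        rw [(mY _).2, (mY _).2]; have := gam_lip (dat_ok j) hY k k'; omega)
      have e : D0 (i, k') - D0 (i, k) =
        E (σ j (gam (dat j) Y k)) - E (σ j (gam (dat j) Y k')) := by simp only [D0]; ring
      rw [e]; exact this
  have anti : ∀ P Q, Step P Q → S P → S Q → om (D0 Q) (D0 P) = -om (D0 P) (D0 Q) :=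
    fun P Q st s t => om_anti (sm0 P Q st s) (sm0 Q P st.symm t)
  let W1 : ℕ → ℕ := fun i => w1 (v1 i)
  let W2 : ℕ → ℕ := fun i => w2 (v2 i)
  have L1 : LW W1 N (tot (dat j) X) := a2.comp f2
  have L2 : LW W2 M (tot (dat j) Y) := b2.comp g2
  have cor : ∀ P : ℕ × ℕ, P.1 ≤ N → P.2 ≤ M → S (W1 P.1, W2 P.2) →
      ‖D P - D0 (W1 P.1, W2 P.2)‖ < ‖D0 (W1 P.1, W2 P.2)‖ := by
    intro P p1 p2 s
    have hb := big0 _ s
    have z1 := hj _ _ (hx _ p1).1 (mX (W1 P.1)).1 (by rw [hx2 _ p1, (mX _).2, dd_self]; omega)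
    have z2 := hj _ _ (hy _ p2).1 (mY (W2 P.2)).1 (by rw [hy2 _ p2, (mY _).2, dd_self]; omega)
    have e : D P - D0 (W1 P.1, W2 P.2) = (E (xx P.1) - E (σ j (gam (dat j) X (W1 P.1)))) -
        (E (yy P.2) - E (σ j (gam (dat j) Y (W2 P.2)))) := by simp only [D, D0]; ring
    rw [e]
    have := norm_sub_le (E (xx P.1) - E (σ j (gam (dat j) X (W1 P.1))))
      (E (yy P.2) - E (σ j (gam (dat j) Y (W2 P.2))))
    linarith
  have stp : ∀ P Q : ℕ × ℕ, Step P Q → Step (W1 P.1, W2 P.2) (W1 Q.1, W2 Q.2) := by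
    rintro ⟨x, y⟩ ⟨x', y'⟩ st
    rcases st with ⟨e, s1, s2⟩ | ⟨e, s1, s2⟩ <;> simp only at e s1 s2 <;> subst e
    · left
      refine ⟨rfl, ?_⟩
      rcases le_total x x' with f | f <;> have := L1.2.2.2.bound' f <;> simp only <;> omega
    · right
      refine ⟨rfl, ?_⟩
      rcases le_total y y' with f | f <;> have := L2.2.2.2.bound' f <;> simp only <;> omega
  have P2 : Prim (fun P => P.1 ≤ N ∧ (P.2 ≤ M ∧ S (W1 P.1, W2 P.2)))
      (fun P Q => om (D0 (W1 P.1, W2 P.2)) (D0 (W1 Q.1, W2 Q.2)))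
      (fun P => θ1 P - om (D0 (W1 P.1, W2 P.2)) (D P)) := by
    rintro P Q st ⟨p1, p2, p3⟩ ⟨q1, q2, q3⟩
    have k1 := t2 P Q st ⟨p1, p2⟩ ⟨q1, q2⟩
    simp only at k1 ⊢
    have big : ‖D Q - D P‖ < ‖D P‖ := by
      have big : η1 ≤ ‖D P‖ := e2 _ _ (hx _ p1).1 (hy _ p2).1 (by
        rw [hx1 _ p1, hy1 _ p2, dd_diff hl]; omega)
      refine lt_of_lt_of_le ?_ big
      obtain ⟨i, k⟩ := P
      obtain ⟨i', k'⟩ := Q
      simp only at p1 p2 q1 q2
      rcases st with ⟨e, u1, u2⟩ | ⟨e, u1, u2⟩ <;> simp only at e u1 u2 <;> subst e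
      · have := hm' _ _ (hx i' q1).1 (hx i p1).1
          (by rw [(hx i' q1).2, (hx i p1).2, dd_same]; omega)
        have e : D (i', k) - D (i, k) = E (xx i') - E (xx i) := by simp only [D]; ring
        rw [e]; exact this
      · have := hm' _ _ (hy k p2).1 (hy k' q2).1
          (by rw [(hy k' q2).2, (hy k p2).2, dd_same]; omega)
        have e : D (i, k') - D (i, k) = E (yy k) - E (yy k') := by simp only [D]; ring
        rw [e]; exact this
    have z1 := abs_lt.1 (om_small big)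
    have z2 := abs_lt.1 (om_small (cor P p1 p2 p3))
    have z3 := abs_lt.1 (om_small (cor Q q1 q2 q3))
    have z4 := abs_lt.1 (om_small (sm0 _ _ (stp P Q st) p3))
    apply eq_of_angle
    · simp only [Real.Angle.coe_sub, t1, om_coe]; abel
    · rw [abs_lt]; constructor <;> linarith
  obtain ⟨θ2, t3, -⟩ := descent1 (S := fun P => P.2 ≤ M ∧ S (P.1, W2 P.2))
    (ω := fun P Q => om (D0 (P.1, W2 P.2)) (D0 (Q.1, W2 Q.2))) L1 (fun P s => s.2.1)
    (fun P => om_self _) (fun P Q st s t => anti _ _ (by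
      obtain ⟨x, y⟩ := P
      obtain ⟨x', y'⟩ := Q
      rcases st with ⟨e, s1, s2⟩ | ⟨e, s1, s2⟩ <;> simp only at e s1 s2 <;> subst e
      · exact Or.inl ⟨rfl, s1, s2⟩
      · right
        refine ⟨rfl, ?_⟩
        rcases le_total y y' with f | f <;> have := L2.2.2.2.bound' f <;> simp only <;> omega)
      s.2 t.2) P2
  exact descent2 (S := S) (ω := fun P Q => om (D0 P) (D0 Q)) L2 (fun P s => s.2.1)
    (fun P => om_self _) anti t3

include hU hS in
theorem no_emb : False := by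
  have hσ' : ∀ k v, v ∈ VV (nn k) → ∃ x, x ∈ Thr ∧ x k = v := fun k v hv => by
    obtain ⟨x, a, b, -⟩ := exists_thr k v hv
    exact ⟨x, a, b⟩
  choose! σ hσ using hσ'
  obtain ⟨η, e1, e2⟩ := hS 0
  obtain ⟨j, hj⟩ := hU (η / 2) (by linarith)
  have hj' := hj j le_rfl
  obtain ⟨θ0, p0⟩ := exists_prim E hU hS σ hσ e2 hj' (pat_valid 0) (pat_valid 0)
    (show (1 : Fin 3) ≠ 2 by decide) (cov_two j (by simp [covers])) (cov_two j (by simp [covers]))
  obtain ⟨θ1, p1⟩ := exists_prim E hU hS σ hσ e2 hj' (pat_valid 0) (pat_valid 1)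
    (show (2 : Fin 3) ≠ 0 by decide) (cov_two j (by simp [covers])) (cov_two j (by simp [covers]))
  obtain ⟨θ2, p2⟩ := exists_prim E hU hS σ hσ e2 hj' (pat_valid 1) (pat_valid 1)
    (show (1 : Fin 3) ≠ 2 by decide)
    (cov_succ (l := 0) (by simp [covers]) (cov_two j (by simp [covers])))
    (cov_succ (l := 0) (by simp [covers]) (cov_two j (by simp [covers])))
  have nz : ∀ u v, u ∈ VV (dat j).n → v ∈ VV (dat j).n → 2 ≤ dd (lab j u) (lab j v) →
      E (σ j u) - E (σ j v) ≠ 0 := by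
    intro u v hu hv h h0
    have := e2 _ _ (hσ j u hu).1 (hσ j v hv).1 (by
      rw [← lab_thr (hσ j u hu).1 j, ← lab_thr (hσ j v hv).1 j, (hσ j u hu).2, (hσ j v hv).2]
      exact h)
    rw [h0, norm_zero] at this
    linarith
  refine final_contra (dat_ok j) (fun u v h => by rwa [dd_comm]) (claims_all j) _
    (fun P => ang (E (σ j P.1) - E (σ j P.2))) (fun P Q => om_coe _ _) ?_ ?_ θ0 θ1 θ2 p0 p1 p2
  · intro u v u' v' h1 h2 h3 h4 h5 h6
    simp only
    rw [← om_neg (nz u v h1 h2 h5) (nz u' v' h3 h4 h6), neg_sub, neg_sub]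
  · intro u v h1 h2 h3
    simp only
    rw [← ang_neg (nz u v h1 h2 h3), neg_sub]

end

end Pool.Agent.MP_1f2e48_gt

end MrgPart0

-- ======== part 1: formerly Pool.Agent.MP_1f2e48_gt.Space
section MrgPart1

set_option autoImplicit false

namespace Pool.Agent.MP_1f2e48_gt

open Filter Topology

/-- the simple triod -/
def TT : Set (ℝ × ℝ) :=
  {p : ℝ × ℝ | (p.2 = 0 ∧ 0 ≤ p.1 ∧ p.1 ≤ 1) ∨ (p.1 = 0 ∧ 0 ≤ p.2 ∧ p.2 ≤ 1) ∨
    (p.2 = 0 ∧ -1 ≤ p.1 ∧ p.1 ≤ 0)}

theorem TT_closed : IsClosed TT := by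
  unfold TT
  simp only [Set.ofPred_or, Set.ofPred_and]
  refine IsClosed.union ?_ (IsClosed.union ?_ ?_) <;>
    refine IsClosed.inter (isClosed_eq (by fun_prop) (by fun_prop))
      (IsClosed.inter (isClosed_le (by fun_prop) (by fun_prop))
        (isClosed_le (by fun_prop) (by fun_prop)))

theorem TT_norm {p : ℝ × ℝ} (h : p ∈ TT) : ‖p‖ ≤ 1 := by
  rw [Prod.norm_def, Real.norm_eq_abs, Real.norm_eq_abs, max_le_iff, abs_le, abs_le]
  rcases h with h | h | h <;> refine ⟨⟨?_, ?_⟩, ?_, ?_⟩ <;> linarith [h.1, h.2.1, h.2.2]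

noncomputable def pos (j : ℕ) : ℕ → V → ℝ × ℝ
  | 0, v => ((v.1 : ℝ) / nn j, (v.2 : ℝ) / nn j)
  | r + 1, v => midpoint ℝ (pos j r (Q (dat (j + r)) 0 v)) (pos j r (Q (dat (j + r)) 1 v))

theorem nn_pos (j : ℕ) : (0 : ℝ) < nn j := by exact_mod_cast dat_pos j

theorem adj_common {n : ℕ} {u v : V} (hu : u ∈ VV n) (hv : v ∈ VV n) (h : dd u v ≤ 1) :
    ∃ l i i', i ≤ n ∧ i' ≤ n ∧ u = pt l i ∧ v = pt l i' ∧ i ≤ i' + 1 ∧ i' ≤ i + 1 := by
  obtain ⟨l, i, hi, rfl⟩ := hu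
  obtain ⟨l', j, hj, rfl⟩ := hv
  by_cases e : l = l'
  · subst e
    rw [dd_same] at h
    exact ⟨l, i, j, hi, hj, rfl, rfl, by omega, by omega⟩
  · rw [dd_diff e] at h
    rcases Nat.eq_zero_or_pos i with rfl | hp
    · exact ⟨l', 0, j, hi, hj, by rw [pt_zero, pt_zero], rfl, by omega, by omega⟩
    · have : j = 0 := by omega
      subst this
      exact ⟨l, i, 0, hi, hj, rfl, by rw [pt_zero, pt_zero], by omega, by omega⟩

theorem pos_inv (j r : ℕ) : ∀ u v, u ∈ VV (nn (j + r)) → v ∈ VV (nn (j + r)) → dd u v ≤ 1 →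
    segment ℝ (pos j r u) (pos j r v) ⊆ TT ∧
      dist (pos j r u) (pos j r v) ≤ (1 / nn j) / 2 ^ r := by
  induction r with
  | zero =>
    intro u v hu hv h
    obtain ⟨l, i, i', h1, h2, rfl, rfl, h3, h4⟩ := adj_common hu hv h
    have hn := nn_pos j
    have a1 : (i : ℝ) / nn j ≤ 1 := by
      rw [div_le_one hn]; exact_mod_cast h1
    have a2 : (i' : ℝ) / nn j ≤ 1 := by
      rw [div_le_one hn]; exact_mod_cast h2
    have a3 : 0 ≤ (i : ℝ) / nn j := by positivity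
    have a4 : 0 ≤ (i' : ℝ) / nn j := by positivity
    have a5 : |(i : ℝ) / nn j - (i' : ℝ) / nn j| ≤ 1 / nn j := by
      rw [← sub_div, abs_div, abs_of_pos hn]
      refine div_le_div_of_nonneg_right ?_ hn.le
      have b1 : (i : ℝ) ≤ i' + 1 := by exact_mod_cast h3
      have b2 : (i' : ℝ) ≤ i + 1 := by exact_mod_cast h4
      rw [abs_le]; constructor <;> linarith
    have a6 : (0 : ℝ) ≤ 1 / nn j := by positivity
    constructor
    · rintro z ⟨s, t, hs, ht, hst, rfl⟩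
      have m1 := mul_nonneg hs a3
      have m2 := mul_nonneg ht a4
      have m3 := mul_le_mul_of_nonneg_left a1 hs
      have m4 := mul_le_mul_of_nonneg_left a2 ht
      fin_cases l
      · left
        simp [pos, pt]
        constructor <;> linarith
      · right; left
        simp [pos, pt]
        constructor <;> linarith
      · right; right
        simp [pos, pt, neg_div]
        constructor <;> linarith
    · rw [Prod.dist_eq, Real.dist_eq, Real.dist_eq, pow_zero, div_one, max_le_iff]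
      fin_cases l
      · simpa [pos, pt] using a5
      · simpa [pos, pt] using a5
      · simp only [pos, pt]
        simp only [Fin.reduceFinMk, Fin.isValue, Fin.reduceEq, if_false, Int.cast_neg,
          Int.cast_natCast, Int.cast_zero, sub_self, abs_zero, neg_div]
        refine ⟨?_, a6⟩
        have z : -((i : ℝ) / nn j) - -((i' : ℝ) / nn j) = -((i : ℝ) / nn j - (i' : ℝ) / nn j) := by
          ring
        rw [z, abs_neg]
        exact a5
  | succ r ih =>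
    intro u v hu hv h
    obtain ⟨l, i, i', -, -, rfl, rfl, h3, h4⟩ := adj_common hu hv h
    set d := dat (j + r)
    have hd : d.ok := dat_ok _
    set h := min i i' / 2
    have hab : dd (gam d (pat l) (cc d l h)) (gam d (pat l) (cc d l (h + 1))) ≤ 1 := by
      have := gam_lip hd (pat_valid l) (cc d l h) (cc d l (h + 1))
      have := cc_lip (d := d) l h
      omega
    obtain ⟨s1, s2⟩ := ih _ _ (gam_mem hd _ (pat_valid l) _) (gam_mem hd _ (pat_valid l) _) hab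
    set A := pos j r (gam d (pat l) (cc d l h))
    set B := pos j r (gam d (pat l) (cc d l (h + 1)))
    have e0 : pos j (r + 1) (pt l (2 * h)) = A := by
      rw [pos, Q_pt (by omega), Q_pt (by omega)]
      have z1 : (2 * h + 0) / 2 = h := by omega
      have z2 : (2 * h + 1) / 2 = h := by omega
      rw [z1, z2, midpoint_self]
    have e1 : pos j (r + 1) (pt l (2 * h + 1)) = midpoint ℝ A B := by
      rw [pos, Q_pt (by omega), Q_pt (by omega)]
      have z1 : (2 * h + 1 + 0) / 2 = h := by omega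
      have z2 : (2 * h + 1 + 1) / 2 = h + 1 := by omega
      rw [z1, z2]
    have e2 : pos j (r + 1) (pt l (2 * h + 2)) = B := by
      rw [pos, Q_pt (by omega), Q_pt (by omega)]
      have z1 : (2 * h + 2 + 0) / 2 = h + 1 := by omega
      have z2 : (2 * h + 2 + 1) / 2 = h + 1 := by omega
      rw [z1, z2, midpoint_self]
    have mA := left_mem_segment ℝ A B
    have mB := right_mem_segment ℝ A B
    have mM := midpoint_mem_segment (𝕜 := ℝ) A B
    have cv := convex_segment (𝕜 := ℝ) A B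
    have d1 : dist A (midpoint ℝ A B) ≤ (1 / nn j) / 2 ^ (r + 1) := by
      rw [dist_left_midpoint, pow_succ, ← div_div]
      simp only [Real.norm_ofNat]; linarith
    have d2 : dist (midpoint ℝ A B) B ≤ (1 / nn j) / 2 ^ (r + 1) := by
      rw [dist_midpoint_right, pow_succ, ← div_div]
      simp only [Real.norm_ofNat]; linarith
    have d0 : (0 : ℝ) ≤ (1 / nn j) / 2 ^ (r + 1) := by have := nn_pos j; positivity
    have : (i = 2 * h ∧ i' = 2 * h) ∨ (i = 2 * h ∧ i' = 2 * h + 1) ∨ (i = 2 * h + 1 ∧ i' = 2 * h) ∨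
        (i = 2 * h + 1 ∧ i' = 2 * h + 1) ∨ (i = 2 * h + 1 ∧ i' = 2 * h + 2) ∨
        (i = 2 * h + 2 ∧ i' = 2 * h + 1) := by omega
    rcases this with ⟨a, b⟩ | ⟨a, b⟩ | ⟨a, b⟩ | ⟨a, b⟩ | ⟨a, b⟩ | ⟨a, b⟩ <;> rw [a, b]
    · rw [e0]; exact ⟨(cv.segment_subset mA mA).trans s1, by simpa using d0⟩
    · rw [e0, e1]; exact ⟨(cv.segment_subset mA mM).trans s1, d1⟩
    · rw [e0, e1]; exact ⟨(cv.segment_subset mM mA).trans s1, by rwa [dist_comm]⟩
    · rw [e1]; exact ⟨(cv.segment_subset mM mM).trans s1, by simpa using d0⟩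
    · rw [e1, e2]; exact ⟨(cv.segment_subset mM mB).trans s1, d2⟩
    · rw [e1, e2]; exact ⟨(cv.segment_subset mB mM).trans s1, by rwa [dist_comm]⟩

theorem Q01 {d : Dat} (hd : d.ok) {n : ℕ} {u : V} (hu : u ∈ VV n) :
    dd (Q d 0 u) (Q d 1 u) ≤ 1 := by
  obtain ⟨l, i, -, rfl⟩ := hu
  rw [Q_pt (by omega), Q_pt (by omega)]
  have := gam_lip hd (pat_valid l) (cc d l ((i + 0) / 2)) (cc d l ((i + 1) / 2))
  have := (cc_lip (d := d) l).bound' (show (i + 0) / 2 ≤ (i + 1) / 2 by omega)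
  omega

theorem pos_step {x : ℕ → V} (hx : x ∈ Thr) (j r : ℕ) :
    dist (pos j r (x (j + r))) (pos j (r + 1) (x (j + (r + 1)))) ≤ (1 / nn j) / 2 / 2 ^ r := by
  have e : Q (dat (j + r)) 0 (x (j + (r + 1))) = x (j + r) := (hx (j + r)).2
  have := (pos_inv j r _ _ (Q_mem (dat_ok _) 0 (x (j + (r + 1))))
    (Q_mem (dat_ok _) 1 (x (j + (r + 1)))) (Q01 (dat_ok _) (hx _).1)).2
  rw [pos, e, dist_left_midpoint]
  rw [e] at this
  simp only [Real.norm_ofNat]
  rw [div_right_comm]; linarith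

noncomputable def pii (j : ℕ) (x : ℕ → V) : ℝ × ℝ :=
  limUnder atTop (fun r => pos j r (x (j + r)))

theorem pii_tendsto {x : ℕ → V} (hx : x ∈ Thr) (j : ℕ) :
    Tendsto (fun r => pos j r (x (j + r))) atTop (𝓝 (pii j x)) :=
  (cauchySeq_of_le_geometric_two (pos_step hx j)).tendsto_limUnder

theorem pii_dist {x : ℕ → V} (hx : x ∈ Thr) (j r : ℕ) :
    dist (pos j r (x (j + r))) (pii j x) ≤ (1 / nn j) / 2 ^ r :=
  dist_le_of_le_geometric_two_of_tendsto (pos_step hx j) (pii_tendsto hx j) r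

theorem pii_mem {x : ℕ → V} (hx : x ∈ Thr) (j : ℕ) : pii j x ∈ TT :=
  TT_closed.mem_of_tendsto (pii_tendsto hx j) (Eventually.of_forall fun r =>
    (pos_inv j r _ _ (hx _).1 (hx _).1 (by rw [dd_self]; omega)).1 (left_mem_segment _ _ _))

theorem exists_exact (k : ℕ) (v : V) (hv : v ∈ VV (nn k)) :
    ∃ x, x ∈ Thr ∧ x k = v ∧ pii k x = pos k 0 v := by
  obtain ⟨x, h1, h2, h3⟩ := exists_thr k v hv
  refine ⟨x, h1, h2, ?_⟩
  have : ∀ r, pos k r (x (k + r)) = pos k 0 v := by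
    intro r
    induction r with
    | zero => rw [add_zero, h2]
    | succ r ih =>
      have e : Q (dat (k + r)) 0 (x (k + r + 1)) = x (k + r) := (h1 (k + r)).2
      change midpoint ℝ (pos k r (Q (dat (k + r)) 0 (x (k + r + 1))))
        (pos k r (Q (dat (k + r)) 1 (x (k + r + 1)))) = _
      rw [e, h3 r, midpoint_self, ih]
  have t := pii_tendsto h1 k
  simp only [this] at t
  exact tendsto_nhds_unique t tendsto_const_nhds

noncomputable def Phi (x : Thr) : BoundedContinuousFunction ℕ (ℝ × ℝ) :=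
  BoundedContinuousFunction.ofNormedAddCommGroupDiscrete
    (fun j => ((1 : ℝ) / 2) ^ j • pii j x.1) 1 (fun j => by
      rw [norm_smul, norm_pow]
      have h1 := TT_norm (pii_mem x.2 j)
      have h2 : ‖(1 : ℝ) / 2‖ ^ j ≤ 1 := pow_le_one₀ (norm_nonneg _) (by norm_num)
      exact mul_le_one₀ h2 (norm_nonneg _) h1)

theorem Phi_apply (x : Thr) (j : ℕ) : Phi x j = ((1 : ℝ) / 2) ^ j • pii j x.1 := rfl

theorem Phi_close (x y : Thr) (k : ℕ) (h : dd (x.1 k) (y.1 k) ≤ 1) :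
    dist (Phi x) (Phi y) ≤ 3 * (1 / 2) ^ k := by
  rw [BoundedContinuousFunction.dist_le (by positivity)]
  intro j
  rw [Phi_apply, Phi_apply, dist_smul₀, norm_pow, Real.norm_eq_abs, abs_of_pos (by norm_num)]
  by_cases e : j ≤ k
  · obtain ⟨r, rfl⟩ : ∃ r, k = j + r := ⟨k - j, by omega⟩
    have a1 := pii_dist x.2 j r
    have a2 := pii_dist y.2 j r
    have a3 := (pos_inv j r _ _ (x.2 _).1 (y.2 _).1 h).2
    have a4 := dist_triangle4 (pii j x.1) (pos j r (x.1 (j + r))) (pos j r (y.1 (j + r)))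
      (pii j y.1)
    rw [dist_comm] at a1
    have a5 : (1 / (nn j : ℝ)) / 2 ^ r ≤ (1 / 2) ^ r := by
      rw [one_div_pow]
      refine div_le_div_of_nonneg_right ?_ (by positivity)
      rw [div_le_one (nn_pos j)]
      exact_mod_cast dat_pos j
    rw [pow_add]
    have : dist (pii j x.1) (pii j y.1) ≤ 3 * (1 / 2) ^ r := by linarith
    calc _ ≤ ((1 : ℝ) / 2) ^ j * (3 * (1 / 2) ^ r) := by gcongr
      _ = _ := by ring
  · have a1 := TT_norm (pii_mem x.2 j)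
    have a2 := TT_norm (pii_mem y.2 j)
    have a3 := dist_le_norm_add_norm (pii j x.1) (pii j y.1)
    have a4 : ((1 : ℝ) / 2) ^ j ≤ (1 / 2) ^ k :=
      pow_le_pow_of_le_one (by norm_num) (by norm_num) (by omega)
    calc _ ≤ ((1 : ℝ) / 2) ^ k * 3 := by gcongr; linarith
      _ = _ := by ring

/-- the continuum -/
abbrev XX : Type := ↥(Set.range Phi)

noncomputable def ph (x : Thr) : XX := ⟨Phi x, x, rfl⟩

theorem ph_surj (m : XX) : ∃ x, ph x = m := by
  obtain ⟨_, x, rfl⟩ := m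
  exact ⟨x, rfl⟩

theorem ph_close {ε : ℝ} (hε : 0 < ε) : ∃ k0, ∀ k, k0 ≤ k → ∀ x y : Thr,
    dd (x.1 k) (y.1 k) ≤ 1 → dist (ph x) (ph y) < ε := by
  obtain ⟨k0, hk⟩ := exists_pow_lt_of_lt_one (show 0 < ε / 3 by linarith)
    (show (1 : ℝ) / 2 < 1 by norm_num)
  refine ⟨k0, fun k hk0 x y h => ?_⟩
  have a1 := Phi_close x y k h
  have a4 : ((1 : ℝ) / 2) ^ k ≤ (1 / 2) ^ k0 :=
    pow_le_pow_of_le_one (by norm_num) (by norm_num) hk0
  change dist (Phi x) (Phi y) < ε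
  linarith

theorem coord_cont (k : ℕ) : Continuous (fun x : Thr => x.1 k) :=
  (continuous_apply k).comp continuous_subtype_val

theorem ph_cont : Continuous ph := by
  rw [continuous_iff_continuousAt]
  intro x
  rw [ContinuousAt, Metric.tendsto_nhds]
  intro ε hε
  obtain ⟨k, hk⟩ := ph_close hε
  have : {y : Thr | y.1 k = x.1 k} ∈ 𝓝 x :=
    ((isOpen_discrete {x.1 k}).preimage (coord_cont k)).mem_nhds rfl
  filter_upwards [this] with y hy
  exact hk k le_rfl y x (by rw [hy, dd_self]; omega)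

theorem VV_finite (n : ℕ) : (VV n).Finite := by
  refine ((Set.finite_univ.prod (Set.finite_Iic n)).image (fun p : Fin 3 × ℕ => pt p.1 p.2)).subset ?_
  rintro _ ⟨l, i, hi, rfl⟩
  exact ⟨(l, i), ⟨trivial, hi⟩, rfl⟩

theorem Thr_compact : IsCompact Thr := by
  refine (isCompact_univ_pi fun k => (VV_finite (nn k)).isCompact).of_isClosed_subset ?_
    (fun x hx k _ => (hx k).1)
  unfold Thr
  simp only [Set.ofPred_forall]
  refine isClosed_iInter fun k => ?_
  have : Continuous (fun x : ℕ → V => (x k, x (k + 1))) := by fun_prop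
  exact (isClosed_discrete {p : V × V | p.1 ∈ VV (nn k) ∧ qm k p.2 = p.1}).preimage this

instance : CompactSpace Thr := isCompact_iff_compactSpace.1 Thr_compact

instance : CompactSpace XX :=
  ⟨by
    have := isCompact_range ph_cont
    rwa [Set.range_eq_univ.2 ph_surj] at this⟩

noncomputable def pr (j : ℕ) (m : XX) : ℝ × ℝ := (2 : ℝ) ^ j • m.1 j

theorem pr_cont (j : ℕ) : Continuous (pr j) := by
  unfold pr
  have h : Continuous (fun m : XX => m.1 j) :=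
    (continuous_eval_const (F := BoundedContinuousFunction ℕ (ℝ × ℝ)) j).comp
      continuous_subtype_val
  exact h.const_smul ((2 : ℝ) ^ j)

theorem pr_ph (j : ℕ) (x : Thr) : pr j (ph x) = pii j x.1 := by
  simp only [pr, ph, Phi_apply, smul_smul, ← mul_pow]
  norm_num

theorem pii_coord (k : ℕ) (x : Thr) :
    |(pii k x.1).1 * nn k - (x.1 k).1| ≤ 1 ∧ |(pii k x.1).2 * nn k - (x.1 k).2| ≤ 1 := by
  have h := pii_dist x.2 k 0
  have hn := nn_pos k
  rw [Prod.dist_eq, Real.dist_eq, Real.dist_eq, pow_zero, div_one, max_le_iff] at h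
  simp only [pos, add_zero] at h
  have key : ∀ a z : ℝ, |z / nn k - a| ≤ 1 / nn k → |a * nn k - z| ≤ 1 := by
    intro a z hz
    have : a * nn k - z = -((z / nn k - a) * nn k) := by field_simp; ring
    rw [this, abs_neg, abs_mul, abs_of_pos hn]
    rwa [le_div_iff₀ hn] at hz
  exact ⟨key _ _ h.1, key _ _ h.2⟩

theorem thr_contr (x y : Thr) (k : ℕ) :
    dd (x.1 k) (y.1 k) ≤ (dd (x.1 (k + 1)) (y.1 (k + 1)) + 1) / 2 := by
  rw [← (x.2 k).2, ← (y.2 k).2]
  exact Q_contr (dat_ok k) (x.2 _).1 (y.2 _).1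

theorem dd_of_pii {x y : Thr} {k : ℕ} (h : pii (k + 2) x.1 = pii (k + 2) y.1) :
    dd (x.1 k) (y.1 k) ≤ 1 := by
  obtain ⟨a1, a2⟩ := pii_coord (k + 2) x
  obtain ⟨b1, b2⟩ := pii_coord (k + 2) y
  rw [h] at a1 a2
  rw [abs_le] at a1 a2 b1 b2
  have c1 : ((x.1 (k + 2)).1 : ℝ) ≤ (y.1 (k + 2)).1 + 2 := by linarith
  have c2 : ((y.1 (k + 2)).1 : ℝ) ≤ (x.1 (k + 2)).1 + 2 := by linarith
  have c3 : ((x.1 (k + 2)).2 : ℝ) ≤ (y.1 (k + 2)).2 + 2 := by linarith
  have c4 : ((y.1 (k + 2)).2 : ℝ) ≤ (x.1 (k + 2)).2 + 2 := by linarith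
  have c1' : (x.1 (k + 2)).1 ≤ (y.1 (k + 2)).1 + 2 := by exact_mod_cast c1
  have c2' : (y.1 (k + 2)).1 ≤ (x.1 (k + 2)).1 + 2 := by exact_mod_cast c2
  have c3' : (x.1 (k + 2)).2 ≤ (y.1 (k + 2)).2 + 2 := by exact_mod_cast c3
  have c4' : (y.1 (k + 2)).2 ≤ (x.1 (k + 2)).2 + 2 := by exact_mod_cast c4
  have e : dd (x.1 (k + 2)) (y.1 (k + 2)) ≤ 4 := by unfold dd; omega
  have := thr_contr x y k
  have := thr_contr x y (k + 1)
  have e2 : k + 1 + 1 = k + 2 := rfl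
  rw [e2] at this
  omega

theorem dd_of_ph {x y : Thr} (h : ph x = ph y) (k : ℕ) : dd (x.1 k) (y.1 k) ≤ 1 :=
  dd_of_pii (by rw [← pr_ph, ← pr_ph, h])

theorem not_emb (e : XX → ℝ × ℝ) (he : IsEmbedding e) : False := by
  classical
  let F : XX → ℂ := fun m => Complex.equivRealProdCLM.symm (e m)
  have Fc : Continuous F := Complex.equivRealProdCLM.symm.continuous.comp he.continuous
  have Fi : Function.Injective F := Complex.equivRealProdCLM.symm.injective.comp he.injective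
  let E : (ℕ → V) → ℂ := fun x => if h : x ∈ Thr then F (ph ⟨x, h⟩) else 0
  have hE : ∀ x (h : x ∈ Thr), E x = F (ph ⟨x, h⟩) := fun x h => by simp [E, h]
  refine no_emb E ?_ ?_
  · intro μ hμ
    obtain ⟨δ, hδ, h⟩ := Metric.uniformContinuous_iff.1
      (CompactSpace.uniformContinuous_of_continuous Fc) μ hμ
    obtain ⟨k0, hk⟩ := ph_close hδ
    refine ⟨k0, fun k hk0 x y hx hy hd => ?_⟩
    rw [hE x hx, hE y hy, ← dist_eq_norm]
    exact h (hk k hk0 _ _ hd)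
  · intro i
    have cl : IsClosed {p : Thr × Thr | 2 ≤ dd (p.1.1 i) (p.2.1 i)} := by
      have : Continuous (fun p : Thr × Thr => (p.1.1 i, p.2.1 i)) :=
        ((coord_cont i).comp continuous_fst).prodMk ((coord_cont i).comp continuous_snd)
      exact (isClosed_discrete {z : V × V | 2 ≤ dd z.1 z.2}).preimage this
    have fc : Continuous (fun p : Thr × Thr => ‖F (ph p.1) - F (ph p.2)‖) :=
      (((Fc.comp ph_cont).comp continuous_fst).sub ((Fc.comp ph_cont).comp continuous_snd)).norm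
    obtain ⟨η, h1, h2⟩ := cl.isCompact.exists_forall_le' fc.continuousOn (a := 0) (by
      intro p hp
      rw [norm_pos_iff, sub_ne_zero]
      intro h
      have := dd_of_ph (Fi h) i
      simp only [Set.mem_ofPred_eq] at hp
      omega)
    refine ⟨η, h1, fun x y hx hy hd => ?_⟩
    rw [hE x hx, hE y hy]
    exact h2 (⟨x, hx⟩, ⟨y, hy⟩) hd

end Pool.Agent.MP_1f2e48_gt

end MrgPart1

-- ======== part 2: formerly Pool.Agent.MP_1f2e48_gt.Cont
section MrgPart2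

set_option autoImplicit false

namespace Pool.Agent.MP_1f2e48_gt

open Filter Topology

theorem thr_of (k : ℕ) {v : V} (hv : v ∈ VV (nn k)) : ∃ x : Thr, x.1 k = v := by
  obtain ⟨x, a, b, -⟩ := exists_thr k v hv
  exact ⟨⟨x, a⟩, b⟩

theorem pt_mem {n i : ℕ} (l : Fin 3) (h : i ≤ n) : pt l i ∈ VV n := ⟨l, i, h, rfl⟩

theorem XX_preconnected : IsPreconnected (Set.univ : Set XX) := by
  rw [isPreconnected_closed_iff]
  rintro s t hs ht hst ⟨a, -, ha⟩ ⟨b, -, hb⟩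
  by_contra hne
  have hd : Disjoint s t := by
    rw [Set.disjoint_iff_inter_eq_empty]
    simpa [Set.not_nonempty_iff_eq_empty] using hne
  obtain ⟨δ, hδ, h⟩ := Metric.exists_pos_forall_lt_edist hs.isCompact ht hd
  obtain ⟨k, hk⟩ := ph_close (ε := δ) (by exact_mod_cast hδ)
  have step : ∀ x y : Thr, dd (x.1 k) (y.1 k) ≤ 1 → ph x ∈ s → ph y ∈ s := by
    intro x y hxy hx
    rcases hst (Set.mem_univ (ph y)) with e | e
    · exact e
    · have h1 := h _ hx _ e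
      have h2 := hk k le_rfl x y hxy
      rw [edist_dist, ← ENNReal.ofReal_coe_nnreal,
        ENNReal.ofReal_lt_ofReal_iff_of_nonneg NNReal.zero_le_coe] at h1
      linarith
  obtain ⟨z, hz⟩ := thr_of k (pt_mem 0 (Nat.zero_le (nn k)))
  have key : ∀ l i, i ≤ nn k → ∀ x : Thr, x.1 k = pt l i → (ph x ∈ s ↔ ph z ∈ s) := by
    intro l i
    induction i with
    | zero =>
      intro _ x hx
      have : dd (x.1 k) (z.1 k) ≤ 1 := by rw [hx, hz, pt_zero, pt_zero, dd_self]; omega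
      exact ⟨step _ _ this, step _ _ (by rwa [dd_comm])⟩
    | succ i ih =>
      intro hi x hx
      obtain ⟨y, hy⟩ := thr_of k (pt_mem l (show i ≤ nn k by omega))
      have : dd (x.1 k) (y.1 k) ≤ 1 := by rw [hx, hy, dd_same]; omega
      rw [← ih (by omega) y hy]
      exact ⟨step _ _ this, step _ _ (by rwa [dd_comm])⟩
  obtain ⟨x, rfl⟩ := ph_surj a
  obtain ⟨y, rfl⟩ := ph_surj b
  obtain ⟨l, i, hi, e⟩ := (x.2 k).1
  obtain ⟨l', i', hi', e'⟩ := (y.2 k).1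
  exact Set.disjoint_left.1 hd ((key l' i' hi' y e').2 ((key l i hi x e).1 ha)) hb

instance : ConnectedSpace XX := by
  obtain ⟨z, -⟩ := thr_of 0 (pt_mem 0 (Nat.zero_le (nn 0)))
  exact { isPreconnected_univ := XX_preconnected, toNonempty := ⟨ph z⟩ }

/-- level `k` shadow of a subset -/
def KK (K : Set XX) (k : ℕ) : Set V := {v | ∃ x : Thr, ph x ∈ K ∧ x.1 k = v}

theorem KK_sub {K : Set XX} {k : ℕ} {v : V} (h : v ∈ KK K k) : v ∈ VV (nn k) := by
  obtain ⟨x, -, rfl⟩ := h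
  exact (x.2 k).1

theorem KK_down {K : Set XX} {k : ℕ} {v : V} (h : v ∈ KK K (k + 1)) : qm k v ∈ KK K k := by
  obtain ⟨x, hx, rfl⟩ := h
  exact ⟨x, hx, ((x.2 k).2).symm⟩

theorem KK_sep {K : Set XX} (hc : IsClosed K) (hK : IsPreconnected K) (k : ℕ) (S : Set V)
    {u v : V} (hu : u ∈ KK K k) (hv : v ∈ KK K k) (h1 : u ∈ S) (h2 : v ∉ S) :
    ∃ u' v', u' ∈ KK K k ∧ v' ∈ KK K k ∧ u' ∈ S ∧ v' ∉ S ∧ dd u' v' ≤ 1 := by
  have cl : ∀ T : Set V, IsClosed (ph '' {x : Thr | ph x ∈ K ∧ x.1 k ∈ T}) := fun T =>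
    (((hc.preimage ph_cont).inter
      ((isClosed_discrete T).preimage (coord_cont k))).isCompact.image ph_cont).isClosed
  obtain ⟨x, hx, rfl⟩ := hu
  obtain ⟨y, hy, rfl⟩ := hv
  obtain ⟨m, -, ⟨a, ⟨a1, a2⟩, rfl⟩, ⟨b, ⟨b1, b2⟩, e⟩⟩ :=
    isPreconnected_closed_iff.1 hK _ _ (cl S) (cl Sᶜ) (by
      intro m hm
      obtain ⟨z, rfl⟩ := ph_surj m
      by_cases e : z.1 k ∈ S
      · exact Or.inl ⟨z, ⟨hm, e⟩, rfl⟩
      · exact Or.inr ⟨z, ⟨hm, e⟩, rfl⟩) ⟨ph x, hx, x, ⟨hx, h1⟩, rfl⟩ ⟨ph y, hy, y, ⟨hy, h2⟩, rfl⟩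
  exact ⟨_, _, ⟨a, a1, rfl⟩, ⟨b, b1, rfl⟩, a2, b2, dd_of_ph e.symm k⟩

theorem KK_between {K : Set XX} (hc : IsClosed K) (hK : IsPreconnected K) {k : ℕ} {l : Fin 3}
    {i s : ℕ} {u : V} (hi : pt l i ∈ KK K k) (hs : s ≤ i) (hu : u ∈ KK K k)
    (h : ∀ t, s < t → u ≠ pt l t) : pt l s ∈ KK K k := by
  rcases eq_or_lt_of_le hs with rfl | hlt
  · exact hi
  obtain ⟨u', v', h1, h2, ⟨t, ht, rfl⟩, h4, h5⟩ := KK_sep hc hK k {z | ∃ t, s < t ∧ z = pt l t}
    hi hu ⟨i, hlt, rfl⟩ (fun ⟨t, a, b⟩ => h t a b)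
  obtain ⟨l', j, -, rfl⟩ := KK_sub h2
  by_cases e : l = l'
  · subst e
    rw [dd_same] at h5
    have : ¬ s < j := fun a => h4 ⟨j, a, rfl⟩
    have : j = s := by omega
    rwa [← this]
  · rw [dd_diff e] at h5
    have a : j = 0 := by omega
    have b : s = 0 := by omega
    rw [a, pt_zero] at h2
    rwa [b, pt_zero]

theorem KK_interval {K : Set XX} (hc : IsClosed K) (hK : IsPreconnected K) {k : ℕ} {l : Fin 3}
    {i j s : ℕ} (hi : pt l i ∈ KK K k) (hj : pt l j ∈ KK K k) (h1 : i ≤ s) (h2 : s ≤ j) :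
    pt l s ∈ KK K k := by
  refine KK_between hc hK hj h2 hi fun t ht e => ?_
  have := dd_same l i t
  rw [e, dd_self] at this
  omega

theorem KK_oneleg {K : Set XX} (hc : IsClosed K) (hK : IsPreconnected K) {k : ℕ}
    (h0 : ((0, 0) : V) ∉ KK K k) {l l' : Fin 3} {i j : ℕ} (hi : pt l i ∈ KK K k)
    (hj : pt l' j ∈ KK K k) : l = l' := by
  by_contra e
  apply h0
  rw [← pt_zero l]
  refine KK_between hc hK hi (Nat.zero_le _) hj fun t ht e2 => ?_
  have := dd_diff e t j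
  rw [e2, dd_self] at this
  omega

def Leg (K : Set XX) (l : Fin 3) (k : ℕ) : Prop := ∀ t, t ≤ nn k → pt l t ∈ KK K k

theorem Leg.cover {K : Set XX} {l' l : Fin 3} {k : ℕ} (hl : covers l' l) (h : Leg K l' (k + 1)) :
    Leg K l k := by
  intro t ht
  obtain ⟨s', n', w, -, a1, a2, a3⟩ := up1 (dat_ok k) (dat_pos k) hl (s := t) (n := 0) ht
  have := KK_down (h (s' + 0) (by change _ ≤ (next (dat k)).n; omega))
  rw [qm, a3 0 (Nat.zero_le _), a2.1] at this
  exact this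

theorem leg_of_center {K : Set XX} (hc : IsClosed K) (hK : IsPreconnected K) {k : ℕ}
    (h0 : ((0, 0) : V) ∈ KK K k) (h1 : ((0, 0) : V) ∈ KK K (k + 1)) : Leg K 2 k := by
  intro t ht
  have := KK_down h1
  rw [← pt_zero 0, qm, Q0_pt, (gg_LW 0).1, pat_zero] at this
  rw [← pt_zero 2] at h0
  exact KK_interval hc hK h0 this (Nat.zero_le _) ht

theorem leg_two {K : Set XX} (hc : IsClosed K) (hK : IsPreconnected K) {k : ℕ} {l : Fin 3}
    (h : Leg K l (k + 1)) : Leg K 2 k := by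
  obtain ⟨l', hl⟩ : ∃ l', covers l l' := by
    fin_cases l
    · exact ⟨1, by simp [covers]⟩
    · exact ⟨0, by simp [covers]⟩
    · exact ⟨0, by simp [covers]⟩
  have a := h.cover hl 0 (Nat.zero_le _)
  have b := h 0 (Nat.zero_le _)
  rw [pt_zero] at a b
  exact leg_of_center hc hK a b

theorem leg_all {K : Set XX} (hc : IsClosed K) (hK : IsPreconnected K) {k : ℕ} {l : Fin 3}
    (h : Leg K l (k + 3)) (l' : Fin 3) : Leg K l' k := by
  have h2 : Leg K 2 (k + 2) := leg_two hc hK h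
  have h3 : Leg K 2 (k + 1) := h2.cover (by simp [covers])
  have h4 : Leg K 0 (k + 1) := h2.cover (by simp [covers])
  fin_cases l'
  · exact h3.cover (by simp [covers])
  · exact h4.cover (by simp [covers])
  · exact h3.cover (by simp [covers])

theorem proper_noleg {K : Set XX} (hc : IsClosed K) (hK : IsPreconnected K) (hne : K ≠ Set.univ) :
    ∃ k1, ∀ k, k1 ≤ k → ∀ l, ¬ Leg K l k := by
  obtain ⟨m, hm⟩ := (Set.ne_univ_iff_exists_notMem K).1 hne
  obtain ⟨ε, hε, hb⟩ := Metric.isOpen_iff.1 hc.isOpen_compl m hm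
  obtain ⟨k0, hk⟩ := ph_close hε
  refine ⟨k0 + 3, fun k hk0 l h => ?_⟩
  obtain ⟨j, rfl⟩ : ∃ j, k = j + 3 := ⟨k - 3, by omega⟩
  obtain ⟨x, rfl⟩ := ph_surj m
  obtain ⟨l', i, hi, e⟩ := (x.2 j).1
  obtain ⟨y, hy, e'⟩ := leg_all hc hK h l' i hi
  exact hb (hk j (by omega) y x (by rw [e, e', dd_self]; omega)) hy

theorem proper_off {K : Set XX} (hc : IsClosed K) (hK : IsPreconnected K) (hne : K ≠ Set.univ)
    (k0 : ℕ) : ∃ k, k0 ≤ k ∧ ((0, 0) : V) ∉ KK K (k + 1) := by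
  obtain ⟨k1, h⟩ := proper_noleg hc hK hne
  by_contra hcon
  push Not at hcon
  exact h (k0 + k1 + 1) (by omega) 2
    (leg_of_center hc hK (hcon _ (by omega)) (hcon _ (by omega)))

theorem hered_aux {A B : Set XX} (hA : IsClosed A) (hA' : IsPreconnected A) (hB : IsClosed B)
    (hU : IsPreconnected (A ∪ B)) {x y : Thr} {k : ℕ} {l : Fin 3} {i j : ℕ}
    (hx : ph x ∈ A) (hy : ph y ∈ B) (ex : x.1 (k + 1) = pt l i) (ey : y.1 (k + 1) = pt l j)
    (hij : i ≤ j) (fx : ∀ z : Thr, dd (z.1 k) (x.1 k) ≤ 1 → ph z ∉ B)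
    (fy : ∀ z : Thr, dd (z.1 k) (y.1 k) ≤ 1 → ph z ∉ A) : False := by
  obtain ⟨i', j', a1, a2, a3, a4, a5, a6, a7⟩ := gg_crooked (d := dat k) l i j hij
  have m1 : pt l i ∈ KK (A ∪ B) (k + 1) := ⟨x, Or.inl hx, ex⟩
  have m2 : pt l j ∈ KK (A ∪ B) (k + 1) := ⟨y, Or.inr hy, ey⟩
  have near : ∀ (z w : Thr) (s t : ℕ), z.1 (k + 1) = pt l s → w.1 (k + 1) = pt l t →
      gg (dat k) l s ≤ gg (dat k) l t + 1 → gg (dat k) l t ≤ gg (dat k) l s + 1 →
      dd (z.1 k) (w.1 k) ≤ 1 := by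
    intro z w s t e1 e2 h1 h2
    rw [← (z.2 k).2, ← (w.2 k).2, e1, e2, qm, qm, Q0_pt, Q0_pt]
    have := gam_lip (dat_ok k) (pat_valid l) (gg (dat k) l s) (gg (dat k) l t)
    omega
  obtain ⟨z, hz, ez⟩ := KK_interval (hA.union hB) hU m1 m2 (s := j') (by omega) a3
  have zA : ph z ∈ A := hz.resolve_right (fx z (near z x _ _ ez ex a6 a7))
  obtain ⟨w, hw, ew⟩ := KK_interval hA hA' (k := k + 1) ⟨x, hx, ex⟩ ⟨z, zA, ez⟩ a1 a2
  exact fy w (near w y _ _ ew ey a4 a5) hw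

theorem hered (A B : Set XX) (hA : IsClosed A) (hA' : IsConnected A) (hB : IsClosed B)
    (hB' : IsConnected B) (hAB : (A ∩ B).Nonempty) : A ⊆ B ∨ B ⊆ A := by
  by_contra hcon
  push Not at hcon
  obtain ⟨h1, h2⟩ := hcon
  obtain ⟨a, ha, ha'⟩ := Set.not_subset.1 h1
  obtain ⟨b, hb, hb'⟩ := Set.not_subset.1 h2
  have hU : IsPreconnected (A ∪ B) := hA'.isPreconnected.union' hAB hB'.isPreconnected
  by_cases e : A ∪ B = Set.univ
  · have nA : A ≠ Set.univ := fun h => hb' (h ▸ Set.mem_univ b)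
    have nB : B ≠ Set.univ := fun h => ha' (h ▸ Set.mem_univ a)
    obtain ⟨k1, hk1⟩ := proper_noleg hB hB'.isPreconnected nB
    obtain ⟨k, hk, h0⟩ := proper_off hA hA'.isPreconnected nA k1
    obtain ⟨x, rfl⟩ := ph_surj a
    obtain ⟨l, i, -, ex⟩ := (x.2 (k + 1)).1
    obtain ⟨l', hl⟩ := exists_ne l
    refine hk1 (k + 1) (by omega) l' fun t ht => ?_
    obtain ⟨z, ez⟩ := thr_of (k + 1) (pt_mem l' ht)
    have : ph z ∈ A ∪ B := e ▸ Set.mem_univ _
    rcases this with h | h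
    · exact absurd (KK_oneleg hA hA'.isPreconnected h0 ⟨z, h, ez⟩ ⟨x, ha, ex⟩) hl
    · exact ⟨z, h, ez⟩
  · obtain ⟨ε1, e1, b1⟩ := Metric.isOpen_iff.1 hB.isOpen_compl a ha'
    obtain ⟨ε2, e2, b2⟩ := Metric.isOpen_iff.1 hA.isOpen_compl b hb'
    obtain ⟨k1, hk1⟩ := ph_close e1
    obtain ⟨k2, hk2⟩ := ph_close e2
    obtain ⟨k, hk, h0⟩ := proper_off (hA.union hB) hU e (k1 + k2)
    obtain ⟨x, rfl⟩ := ph_surj a
    obtain ⟨y, rfl⟩ := ph_surj b
    obtain ⟨l, i, -, ex⟩ := (x.2 (k + 1)).1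
    obtain ⟨l', j, -, ey⟩ := (y.2 (k + 1)).1
    have := KK_oneleg (hA.union hB) hU h0 ⟨x, Or.inl ha, ex⟩ ⟨y, Or.inr hb, ey⟩
    subst this
    have fx : ∀ z : Thr, dd (z.1 k) (x.1 k) ≤ 1 → ph z ∉ B := fun z h =>
      b1 (hk1 k (by omega) z x h)
    have fy : ∀ z : Thr, dd (z.1 k) (y.1 k) ≤ 1 → ph z ∉ A := fun z h =>
      b2 (hk2 k (by omega) z y h)
    rcases le_total i j with h | h
    · exact hered_aux hA hA'.isPreconnected hB hU ha hb ex ey h fx fy
    · exact hered_aux hB hB'.isPreconnected hA (by rwa [Set.union_comm]) hb ha ey ex h fy fx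

theorem pr_range (k : ℕ) : Set.range (pr k) = TT := by
  have hn := nn_pos k
  have mem : ∀ m, pr k m ∈ TT := fun m => by
    obtain ⟨x, rfl⟩ := ph_surj m
    rw [pr_ph]; exact pii_mem x.2 k
  have ex : ∀ l i, i ≤ nn k → ∃ m, pr k m = pos k 0 (pt l i) := by
    intro l i hi
    obtain ⟨x, a, -, c⟩ := exists_exact k _ (pt_mem l hi)
    exact ⟨ph ⟨x, a⟩, by rw [pr_ph, c]⟩
  obtain ⟨m0, h0⟩ := ex 0 0 (Nat.zero_le _)
  obtain ⟨mA, hA⟩ := ex 0 _ le_rfl
  obtain ⟨mB, hB⟩ := ex 1 _ le_rfl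
  obtain ⟨mC, hC⟩ := ex 2 _ le_rfl
  have h0' : pr k m0 = (0, 0) := by rw [h0]; simp [pos, pt]
  have hA' : pr k mA = (1, 0) := by rw [hA]; simp [pos, pt, hn.ne']
  have hB' : pr k mB = (0, 1) := by rw [hB]; simp [pos, pt, hn.ne']
  have hC' : pr k mC = (-1, 0) := by rw [hC]; simp [pos, pt, hn.ne']
  have c1 : Continuous fun m => (pr k m).1 := continuous_fst.comp (pr_cont k)
  have c2 : Continuous fun m => (pr k m).2 := continuous_snd.comp (pr_cont k)
  refine Set.Subset.antisymm (by rintro _ ⟨m, rfl⟩; exact mem m) ?_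
  rintro ⟨s, t⟩ hp
  by_cases z : s = 0 ∧ t = 0
  · exact ⟨m0, by rw [h0', z.1, z.2]⟩
  rcases hp with ⟨a, b, c⟩ | ⟨a, b, c⟩ | ⟨a, b, c⟩ <;> simp only at a b c <;> subst a
  · obtain ⟨m, hm⟩ := intermediate_value_univ m0 mA c1 (show s ∈ _ by
      rw [h0', hA']; exact ⟨b, c⟩)
    refine ⟨m, Prod.ext hm ?_⟩
    simp only at hm
    rcases mem m with h | h | h
    · exact h.1
    · exact absurd ⟨hm ▸ h.1, rfl⟩ z
    · exact h.1
  · obtain ⟨m, hm⟩ := intermediate_value_univ m0 mB c2 (show t ∈ _ by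
      rw [h0', hB']; exact ⟨b, c⟩)
    refine ⟨m, Prod.ext ?_ hm⟩
    simp only at hm
    rcases mem m with h | h | h
    · exact absurd ⟨rfl, hm ▸ h.1⟩ z
    · exact h.1
    · exact absurd ⟨rfl, hm ▸ h.1⟩ z
  · obtain ⟨m, hm⟩ := intermediate_value_univ mC m0 c1 (show s ∈ _ by
      rw [h0', hC']; exact ⟨b, c⟩)
    refine ⟨m, Prod.ext hm ?_⟩
    simp only at hm
    rcases mem m with h | h | h
    · exact h.1
    · exact absurd ⟨hm ▸ h.1, rfl⟩ z
    · exact h.1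

theorem triod_like (ε : ℝ) (hε : 0 < ε) : ∃ f : XX → ℝ × ℝ, Continuous f ∧ Set.range f = TT ∧
    ∀ x y : XX, f x = f y → dist x y < ε := by
  obtain ⟨k, hk⟩ := ph_close hε
  refine ⟨pr (k + 2), pr_cont _, pr_range _, fun a b h => ?_⟩
  obtain ⟨x, rfl⟩ := ph_surj a
  obtain ⟨y, rfl⟩ := ph_surj b
  rw [pr_ph, pr_ph] at h
  exact hk k le_rfl x y (dd_of_pii h)

/-- depth coordinate along a leg -/
def co (l : Fin 3) (p : ℝ × ℝ) : ℝ := if l = 0 then p.1 else if l = 1 then p.2 else -p.1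

theorem co_cont (l : Fin 3) : Continuous (co l) := by
  unfold co
  split_ifs <;> fun_prop

theorem co_depth {k : ℕ} {x : Thr} {l : Fin 3} {i : ℕ} (h : x.1 k = pt l i) :
    |co l (pii k x.1) * nn k - i| ≤ 1 := by
  obtain ⟨a, b⟩ := pii_coord k x
  rw [h] at a b
  fin_cases l
  · simpa [co, pt] using a
  · simpa [co, pt] using b
  · simp only [co, pt, Fin.reduceFinMk, Fin.isValue, Fin.reduceEq, if_false, Int.cast_neg,
      Int.cast_natCast] at a ⊢
    rw [abs_le] at a ⊢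
    constructor <;> linarith [a.1, a.2]

theorem arc_like (K : Set XX) (hc : IsClosed K) (hK : IsConnected K) (hne : K ≠ Set.univ) :
    K.Subsingleton ∨ ∀ ε : ℝ, 0 < ε → ∃ g : XX → ℝ, ContinuousOn g K ∧ g '' K = Set.Icc 0 1 ∧
      ∀ x ∈ K, ∀ y ∈ K, g x = g y → dist x y < ε := by
  rcases K.subsingleton_or_nontrivial with h | ⟨a, ha, b, hb, hab⟩
  · exact Or.inl h
  right
  intro ε hε
  obtain ⟨k0, hk0⟩ := ph_close (lt_min hε (dist_pos.2 hab))
  obtain ⟨k, hk, h0⟩ := proper_off hc hK.isPreconnected hne k0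
  obtain ⟨x0, rfl⟩ := ph_surj a
  obtain ⟨l, i0, -, e0⟩ := (x0.2 (k + 1)).1
  let h : XX → ℝ := fun m => co l (pr (k + 1) m)
  have hcont : Continuous h := (co_cont l).comp (pr_cont _)
  have fib : ∀ x ∈ K, ∀ y ∈ K, h x = h y → dist x y < min ε (dist (ph x0) b) := by
    intro u hu v hv e
    obtain ⟨x, rfl⟩ := ph_surj u
    obtain ⟨y, rfl⟩ := ph_surj v
    obtain ⟨l1, i, -, ex⟩ := (x.2 (k + 1)).1
    obtain ⟨l2, j, -, ey⟩ := (y.2 (k + 1)).1
    have z1 := KK_oneleg hc hK.isPreconnected h0 ⟨x0, ha, e0⟩ ⟨x, hu, ex⟩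
    have z2 := KK_oneleg hc hK.isPreconnected h0 ⟨x0, ha, e0⟩ ⟨y, hv, ey⟩
    subst z1 z2
    have a1 := abs_le.1 (co_depth ex)
    have a2 := abs_le.1 (co_depth ey)
    simp only [h, pr_ph] at e
    rw [e] at a1
    have c1 : (i : ℝ) ≤ j + 2 := by linarith
    have c2 : (j : ℝ) ≤ i + 2 := by linarith
    have c1' : i ≤ j + 2 := by exact_mod_cast c1
    have c2' : j ≤ i + 2 := by exact_mod_cast c2
    have := thr_contr x y k
    rw [ex, ey, dd_same] at this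
    exact hk0 k hk x y (by omega)
  have eI := eq_Icc_of_connected_compact (hK.image h hcont.continuousOn)
    (hc.isCompact.image hcont)
  set s := sInf (h '' K)
  set t := sSup (h '' K)
  have m1 : h (ph x0) ∈ Set.Icc s t := eI ▸ ⟨_, ha, rfl⟩
  have m2 : h b ∈ Set.Icc s t := eI ▸ ⟨_, hb, rfl⟩
  have hst : s < t := by
    by_contra hc'
    have : h (ph x0) = h b := by
      have := m1.1; have := m1.2; have := m2.1; have := m2.2
      linarith
    have := (fib _ ha _ hb this).trans_le (min_le_right _ _)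
    exact lt_irrefl _ this
  have hp : 0 < t - s := by linarith
  refine ⟨fun m => (h m - s) / (t - s), by fun_prop, ?_, fun x hx y hy e => ?_⟩
  · ext z
    constructor
    · rintro ⟨m, hm, rfl⟩
      have : h m ∈ Set.Icc s t := eI ▸ ⟨_, hm, rfl⟩
      exact ⟨div_nonneg (by linarith [this.1]) hp.le, (div_le_one hp).2 (by linarith [this.2])⟩
    · rintro ⟨z0, z1⟩
      have : s + z * (t - s) ∈ h '' K := by
        rw [eI]
        constructor <;> nlinarith
      obtain ⟨m, hm, e⟩ := this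
      refine ⟨m, hm, ?_⟩
      simp only [e]
      field_simp
      ring
  · refine (fib x hx y hy ?_).trans_le (min_le_left _ _)
    simp only at e
    rw [div_left_inj' hp.ne'] at e
    linarith

end Pool.Agent.MP_1f2e48_gt

end MrgPart2

-- marker of a merged file
example : 731051 + 587799 = 731051 + 587799 := rfl
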